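import Pool.Agent.J4H63.GZ.Bd

/-!
# Errors can be moved into the advice
-/

namespace Pool.Agent.J4H63.GZ

open MvPolynomial

theorem E2star.comp_proj {n m : ℕ} {R : (Fin m → ℕ) → Prop} (hR : E2star m R) (e : Fin m → Fin n) :
    E2star n (fun v => R (fun i => v (e i))) := by
  obtain ⟨f, hf, hf'⟩ := hR
  exact ⟨fun v => f (fun i => v (e i)), E2.comp (hs := fun i v => v (e i)) hf fun i => E2.proj _,
    fun v => hf' _⟩

/-- `R` is `Δ₀` with advice: a vector of numbers of polynomial size, the same for all inputs up to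
a given bound. -/
def Adv {K : ℕ} (R : (Fin K → ℕ) → Prop) : Prop :=
  ∃ (A : Type) (_ : Finite A) (Φ : (A ⊕ Fin K → ℕ) → Prop) (c : ℕ), Bd Φ ∧
    ∀ z : ℕ, ∃ α : A → ℕ, (∀ i, α i ≤ (z + 2) ^ c) ∧
      ∀ v : Fin K → ℕ, (∀ i, v i ≤ z) → (R v ↔ Φ (Sum.elim α v))

theorem adv_of_near {m K : ℕ} (hm : 1 ≤ m) {R : (Fin K → ℕ) → Prop}
    (h : NearDelta0 m (K + (K * (m - 1) + 1)) (fun u => R (fun i => u (Fin.castAdd _ i)))) :
    Adv R := by
  classical
  set C := K * (m - 1) + 1 with hC
  obtain ⟨S, c, hS, h⟩ := h
  refine ⟨Option (Fin C), inferInstance, fun u => S (Matrix.vecCons (u (Sum.inl none))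
    (Fin.append (fun i => u (Sum.inr i)) (fun j => u (Sum.inl (some j))))), 2 * c, ?_, ?_⟩
  · refine ((Bd.of_delta0 hS).subst (f := fun i u => Matrix.vecCons (u (Sum.inl none))
      (Fin.append (fun i => u (Sum.inr i)) (fun j => u (Sum.inl (some j)))) i) ?_).congr
      fun w => Iff.rfl
    intro i
    refine Fin.cases ?_ (fun j => ?_) i
    · exact PF.proj _
    · refine Fin.addCases (fun i => ?_) (fun j => ?_) j
      · simp only [Matrix.cons_val_succ, Fin.append_left]
        exact PF.proj _
      · simp only [Matrix.cons_val_succ, Fin.append_right]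
        exact PF.proj _
  · intro z
    obtain ⟨Z, a, hz, hZ, ha, hE⟩ := h (z + 1)
    have hpow : (z + 1 + 2) ^ c ≤ (z + 2) ^ (2 * c) := by
      rw [pow_mul]
      exact Nat.pow_le_pow_left (by nlinarith) c
    set E : Set (Fin (K + C) → ℕ) := {v | (∀ i, v i ≤ Z) ∧
      ¬ (R (fun i => v (Fin.castAdd _ i)) ↔ S (Matrix.vecCons a v))} with hEdef
    have hbox : {v : Fin (K + C) → ℕ | ∀ i, v i ≤ Z}.Finite := by
      refine (Set.Finite.pi' (t := fun _ : Fin (K + C) => {x : ℕ | x ≤ Z})
        fun i => Set.finite_le_nat Z)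
    have hEf : E.Finite := hbox.subset fun v hv => hv.1
    -- a vector `r` without errors
    have hex : ∃ r : Fin C → ℕ, (∀ j, r j ≤ Z) ∧ ∀ v : Fin K → ℕ, (∀ i, v i ≤ Z) →
        Fin.append v r ∉ E := by
      by_contra hno
      push Not at hno
      have hno' : ∀ r : Fin C → ℕ, ∃ v : Fin K → ℕ, (∀ j, r j ≤ Z) → Fin.append v r ∈ E := by
        intro r
        by_cases hr : ∀ j, r j ≤ Z
        · obtain ⟨v, _, hv⟩ := hno r hr
          exact ⟨v, fun _ => hv⟩
        · exact ⟨0, fun h => absurd h hr⟩
      choose V hV using hno'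
      have hcard : (Z + 1) ^ C ≤ E.ncard := by
        have h1 : (Fintype.piFinset (fun _ : Fin C => Finset.range (Z + 1))).card = (Z + 1) ^ C := by
          rw [Fintype.card_piFinset]
          simp
        rw [← h1, Set.ncard_eq_toFinset_card E hEf]
        refine Finset.card_le_card_of_injOn (fun r => Fin.append (V r) r) ?_ ?_
        · intro r hr
          rw [Finset.mem_coe, Fintype.mem_piFinset] at hr
          rw [Finset.mem_coe, Set.Finite.mem_toFinset]
          exact hV r fun j => by
            have := hr j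
            rw [Finset.mem_range] at this
            omega
        · intro r _ r' _ heq
          funext j
          have := congrFun heq (Fin.natAdd K j)
          simpa using this
      have h2 : (Z + 1) ^ (C * m) ≤ (Z + 1) ^ ((K + C) * (m - 1)) := by
        rw [pow_mul]
        exact (Nat.pow_le_pow_left hcard m).trans hE
      have h3 : C * m ≤ (K + C) * (m - 1) :=
        (Nat.pow_le_pow_iff_right (by omega)).1 h2
      obtain ⟨m, rfl⟩ : ∃ m', m = m' + 1 := ⟨m - 1, by omega⟩
      simp only [Nat.add_sub_cancel] at hC h3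
      have h4 : C * (m + 1) = C * m + C := by ring
      have h5 : (K + C) * m = K * m + C * m := by ring
      omega
    obtain ⟨r, hr, hr'⟩ := hex
    refine ⟨fun o => o.elim a r, fun o => ?_, fun v hv => ?_⟩
    · cases o with
      | none => exact ha.trans hpow
      | some j => exact (hr j).trans (hZ.trans hpow)
    · have h1 := hr' v fun i => (hv i).trans (by omega)
      rw [hEdef] at h1
      simp only [Set.mem_ofPred_eq, not_and, not_not] at h1
      have h2 := h1 (by
        intro i
        refine Fin.addCases (fun i => ?_) (fun j => ?_) i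
        · rw [Fin.append_left]; exact (hv i).trans (by omega)
        · rw [Fin.append_right]; exact hr j)
      simp only [Fin.append_left] at h2
      rw [h2]
      simp only [Sum.elim_inl, Sum.elim_inr, Option.elim_none, Option.elim_some]

end Pool.Agent.J4H63.GZ
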