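import Pool.Agent.J4H63.GZ.Defs

/-!
# A toolkit for bounded formulas, with arbitrary index types
-/

namespace Pool.Agent.J4H63.GZ

open MvPolynomial

/-- polynomial functions -/
def PF {ι : Type} (f : (ι → ℕ) → ℕ) : Prop := ∃ p : MvPolynomial ι ℕ, ∀ v, f v = eval v p

namespace PF

variable {ι κ : Type} {f g : (ι → ℕ) → ℕ}

theorem const (c : ℕ) : PF (fun _ : ι → ℕ => c) := ⟨C c, fun v => by simp⟩

theorem proj (i : ι) : PF (fun v : ι → ℕ => v i) := ⟨X i, fun v => by simp⟩

theorem add (hf : PF f) (hg : PF g) : PF (fun v => f v + g v) := by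
  obtain ⟨p, hp⟩ := hf
  obtain ⟨q, hq⟩ := hg
  exact ⟨p + q, fun v => by simp only [hp, hq, map_add]⟩

theorem mul (hf : PF f) (hg : PF g) : PF (fun v => f v * g v) := by
  obtain ⟨p, hp⟩ := hf
  obtain ⟨q, hq⟩ := hg
  exact ⟨p * q, fun v => by simp only [hp, hq, map_mul]⟩

theorem pow (hf : PF f) (k : ℕ) : PF (fun v => f v ^ k) := by
  obtain ⟨p, hp⟩ := hf
  exact ⟨p ^ k, fun v => by simp only [hp, map_pow]⟩

theorem sum {α : Type} (s : Finset α) {F : α → (ι → ℕ) → ℕ} (hF : ∀ a, PF (F a)) :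
    PF (fun v => ∑ a ∈ s, F a v) := by
  choose p hp using hF
  exact ⟨∑ a ∈ s, p a, fun v => by rw [map_sum]; exact Finset.sum_congr rfl fun a _ => hp a v⟩

theorem comp {F : (κ → ℕ) → ℕ} (hF : PF F) {r : κ → (ι → ℕ) → ℕ} (hr : ∀ i, PF (r i)) :
    PF (fun v => F (fun i => r i v)) := by
  obtain ⟨p, hp⟩ := hF
  choose q hq using hr
  refine ⟨bind₁ q p, fun v => ?_⟩
  simp only [hp, hq]
  have h := eval₂Hom_bind₁ (RingHom.id ℕ) v q p
  exact h.symm

theorem mono (hf : PF f) {v w : ι → ℕ} (h : ∀ i, v i ≤ w i) : f v ≤ f w := by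
  obtain ⟨p, hp⟩ := hf
  rw [hp, hp, eval_eq, eval_eq]
  refine Finset.sum_le_sum fun m _ => Nat.mul_le_mul_left _ ?_
  exact Finset.prod_le_prod' fun i _ => Nat.pow_le_pow_left (h i) _

end PF

/-- bounded formulas, with variables indexed by an arbitrary type -/
inductive Bd : {ι : Type} → ((ι → ℕ) → Prop) → Prop
  | eq {ι : Type} (p q : MvPolynomial ι ℕ) : Bd (fun v : ι → ℕ => eval v p = eval v q)
  | le {ι : Type} (p q : MvPolynomial ι ℕ) : Bd (fun v : ι → ℕ => eval v p ≤ eval v q)
  | not {ι : Type} {P : (ι → ℕ) → Prop} : Bd P → Bd (fun v => ¬ P v)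
  | and {ι : Type} {P Q : (ι → ℕ) → Prop} : Bd P → Bd Q → Bd (fun v => P v ∧ Q v)
  | ex {ι : Type} {P : (Option ι → ℕ) → Prop} (p : MvPolynomial ι ℕ) :
      Bd P → Bd (fun v : ι → ℕ => ∃ x, x ≤ eval v p ∧ P (fun o => o.elim x v))

namespace Bd

variable {ι κ : Type}

theorem congr {P Q : (ι → ℕ) → Prop} (h : Bd P) (hPQ : ∀ v, Q v ↔ P v) : Bd Q := by
  have : Q = P := funext fun v => propext (hPQ v)
  rw [this]
  exact h

theorem eqf {f g : (ι → ℕ) → ℕ} (hf : PF f) (hg : PF g) : Bd (fun v => f v = g v) := by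
  obtain ⟨p, hp⟩ := hf
  obtain ⟨q, hq⟩ := hg
  exact (Bd.eq p q).congr fun v => by rw [hp, hq]

theorem lef {f g : (ι → ℕ) → ℕ} (hf : PF f) (hg : PF g) : Bd (fun v => f v ≤ g v) := by
  obtain ⟨p, hp⟩ := hf
  obtain ⟨q, hq⟩ := hg
  exact (Bd.le p q).congr fun v => by rw [hp, hq]

theorem ltf {f g : (ι → ℕ) → ℕ} (hf : PF f) (hg : PF g) : Bd (fun v => f v < g v) :=
  (lef (hf.add (PF.const 1)) hg).congr fun _ => Iff.rfl

theorem or {P Q : (ι → ℕ) → Prop} (hP : Bd P) (hQ : Bd Q) : Bd (fun v => P v ∨ Q v) :=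
  (Bd.not (Bd.and (Bd.not hP) (Bd.not hQ))).congr fun v => by tauto

theorem imp {P Q : (ι → ℕ) → Prop} (hP : Bd P) (hQ : Bd Q) : Bd (fun v => P v → Q v) :=
  (Bd.not (Bd.and hP (Bd.not hQ))).congr fun v => by tauto

theorem iff {P Q : (ι → ℕ) → Prop} (hP : Bd P) (hQ : Bd Q) : Bd (fun v => (P v ↔ Q v)) :=
  (Bd.and (hP.imp hQ) (hQ.imp hP)).congr fun v => by tauto

theorem ex_le {P : (ι → ℕ) → ℕ → Prop} {b : (ι → ℕ) → ℕ} (hb : PF b)
    (hP : Bd (fun w : Option ι → ℕ => P (fun i => w (some i)) (w none))) :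
    Bd (fun v => ∃ x ≤ b v, P v x) := by
  obtain ⟨p, hp⟩ := hb
  exact (Bd.ex p hP).congr fun v => by simp only [hp]; rfl

theorem all_le {P : (ι → ℕ) → ℕ → Prop} {b : (ι → ℕ) → ℕ} (hb : PF b)
    (hP : Bd (fun w : Option ι → ℕ => P (fun i => w (some i)) (w none))) :
    Bd (fun v => ∀ x ≤ b v, P v x) :=
  (Bd.not (ex_le hb (P := fun v x => ¬ P v x) (Bd.not hP))).congr fun v => by
    push Not
    rfl

theorem all_lt {P : (ι → ℕ) → ℕ → Prop} {b : (ι → ℕ) → ℕ} (hb : PF b)
    (hP : Bd (fun w : Option ι → ℕ => P (fun i => w (some i)) (w none))) :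
    Bd (fun v => ∀ x < b v, P v x) :=
  (all_le hb (P := fun v x => x < b v → P v x) (Bd.imp (ltf (PF.proj none)
    (hb.comp fun i => PF.proj (some i))) hP)).congr fun v => by
    constructor
    · intro h x _ hx; exact h x hx
    · intro h x hx; exact h x hx.le hx

theorem ex_lt {P : (ι → ℕ) → ℕ → Prop} {b : (ι → ℕ) → ℕ} (hb : PF b)
    (hP : Bd (fun w : Option ι → ℕ => P (fun i => w (some i)) (w none))) :
    Bd (fun v => ∃ x < b v, P v x) :=
  (ex_le hb (P := fun v x => x < b v ∧ P v x) (Bd.and (ltf (PF.proj none)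
    (hb.comp fun i => PF.proj (some i))) hP)).congr fun v => by
    constructor
    · rintro ⟨x, hx, h⟩; exact ⟨x, hx.le, hx, h⟩
    · rintro ⟨x, _, hx, h⟩; exact ⟨x, hx, h⟩

theorem subst {P : (κ → ℕ) → Prop} (hP : Bd P) : ∀ {ι : Type} {f : κ → (ι → ℕ) → ℕ},
    (∀ i, PF (f i)) → Bd (fun v : ι → ℕ => P (fun i => f i v)) := by
  induction hP with
  | eq p q => exact fun hf => eqf (PF.comp ⟨p, fun _ => rfl⟩ hf) (PF.comp ⟨q, fun _ => rfl⟩ hf)
  | le p q => exact fun hf => lef (PF.comp ⟨p, fun _ => rfl⟩ hf) (PF.comp ⟨q, fun _ => rfl⟩ hf)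
  | not _ ih => exact fun hf => Bd.not (ih hf)
  | and _ _ ih1 ih2 => exact fun hf => Bd.and (ih1 hf) (ih2 hf)
  | @ex κ P p _ ih =>
    intro ι f hf
    refine ex_le (b := fun v => eval (fun i => f i v) p)
      (P := fun v x => P (fun o => o.elim x (fun i => f i v)))
      (PF.comp ⟨p, fun _ => rfl⟩ hf) ?_
    refine (ih (f := fun o w => o.elim (w none) (fun i => f i (fun j => w (some j)))) ?_).congr
      fun w => ?_
    · intro o
      cases o with
      | none => exact PF.proj none
      | some i => exact (hf i).comp fun j => PF.proj (some j)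
    · have : (fun o : Option κ => o.elim (w none) fun i => f i fun j => w (some j)) =
          fun i : Option κ => (fun (o : Option κ) (w : Option ι → ℕ) =>
            o.elim (w none) (fun i => f i (fun j => w (some j)))) i w := rfl
      rw [this]

theorem toDelta0 {P : (κ → ℕ) → Prop} (hP : Bd P) : ∀ {n : ℕ} {f : κ → (Fin n → ℕ) → ℕ},
    (∀ i, PF (f i)) → Delta0 n (fun v => P (fun i => f i v)) := by
  induction hP with
  | eq p q =>
    intro n f hf
    obtain ⟨p', hp'⟩ : PF (fun v => eval (fun i => f i v) p) := PF.comp ⟨p, fun _ => rfl⟩ hf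
    obtain ⟨q', hq'⟩ : PF (fun v => eval (fun i => f i v) q) := PF.comp ⟨q, fun _ => rfl⟩ hf
    simp only [hp', hq']
    exact Delta0.eq p' q'
  | le p q =>
    intro n f hf
    obtain ⟨p', hp'⟩ : PF (fun v => eval (fun i => f i v) p) := PF.comp ⟨p, fun _ => rfl⟩ hf
    obtain ⟨q', hq'⟩ : PF (fun v => eval (fun i => f i v) q) := PF.comp ⟨q, fun _ => rfl⟩ hf
    simp only [hp', hq']
    exact Delta0.le p' q'
  | not _ ih => exact fun hf => Delta0.not (ih hf)
  | and _ _ ih1 ih2 => exact fun hf => Delta0.and (ih1 hf) (ih2 hf)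
  | @ex κ P p _ ih =>
    intro n f hf
    obtain ⟨p', hp'⟩ : PF (fun v => eval (fun i => f i v) p) := PF.comp ⟨p, fun _ => rfl⟩ hf
    simp only [hp']
    have h := ih (n := n + 1) (f := fun o w => o.elim (w 0) (fun i => f i (fun j => w j.succ)))
      (by
        intro o
        cases o with
        | none => exact PF.proj 0
        | some i => exact (hf i).comp fun j => PF.proj j.succ)
    have h2 := Delta0.ex p' h
    convert h2 using 6 with v x
    funext o
    cases o with
    | none => rfl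
    | some i => rfl

theorem of_delta0 {n : ℕ} {P : (Fin n → ℕ) → Prop} (hP : Delta0 n P) : Bd P := by
  induction hP with
  | eq p q => exact Bd.eq p q
  | le p q => exact Bd.le p q
  | not _ ih => exact Bd.not ih
  | and _ _ ih1 ih2 => exact Bd.and ih1 ih2
  | @ex n P p _ ih =>
    refine ex_le (b := fun v => eval v p) (P := fun v x => P (Matrix.vecCons x v))
      ⟨p, fun _ => rfl⟩ ?_
    refine (ih.subst (f := fun i w => Matrix.vecCons (w none) (fun j => w (some j)) i) ?_).congr
      fun w => Iff.rfl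
    intro i
    refine Fin.cases ?_ (fun j => ?_) i
    · exact PF.proj none
    · exact PF.proj (some j)

theorem delta0_iff {n : ℕ} {P : (Fin n → ℕ) → Prop} : Delta0 n P ↔ Bd P :=
  ⟨of_delta0, fun h => h.toDelta0 (f := fun i v => v i) fun i => PF.proj i⟩

/-- quantifiers over vectors -/
theorem exVec (κ : Type) [Finite κ] : ∀ {ι : Type} {P : (ι → ℕ) → (κ → ℕ) → Prop}
    {b : (ι → ℕ) → ℕ}, PF b →
    Bd (fun w : ι ⊕ κ → ℕ => P (fun i => w (Sum.inl i)) (fun j => w (Sum.inr j))) →
    Bd (fun v => ∃ y : κ → ℕ, (∀ i, y i ≤ b v) ∧ P v y) := by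
  induction κ using Finite.induction_empty_option with
  | of_equiv e ih =>
    rename_i κ κ'
    intro ι P b hb hP
    refine (ih (P := fun v y => P v (fun j => y (e.symm j))) hb ?_).congr fun v => ?_
    · refine (hP.subst (f := fun s w => Sum.elim (fun i => w (Sum.inl i))
        (fun j => w (Sum.inr (e.symm j))) s) ?_).congr fun w => Iff.rfl
      intro s
      cases s with
      | inl i => exact PF.proj (Sum.inl i)
      | inr j => exact PF.proj (Sum.inr (e.symm j))
    · constructor
      · rintro ⟨y, h1, h2⟩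
        refine ⟨fun j => y (e j), fun i => h1 _, ?_⟩
        simpa using h2
      · rintro ⟨y, h1, h2⟩
        exact ⟨fun j => y (e.symm j), fun i => h1 _, h2⟩
  | h_empty =>
    intro ι P b _ hP
    refine (hP.subst (f := fun s (v : ι → ℕ) => Sum.elim (fun i => v i)
      (fun j : PEmpty => j.elim) s) ?_).congr fun v => ?_
    · intro s
      cases s with
      | inl i => exact PF.proj i
      | inr j => exact j.elim
    · constructor
      · rintro ⟨y, _, h2⟩
        have : y = fun j : PEmpty => j.elim := funext fun j => j.elim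
        rw [this] at h2
        exact h2
      · intro h
        exact ⟨fun j => j.elim, fun i => i.elim, h⟩
  | h_option ih =>
    rename_i κ _
    intro ι P b hb hP
    refine (ex_le (P := fun v x => ∃ y : κ → ℕ, (∀ i, y i ≤ b v) ∧ P v (fun o => o.elim x y)) hb
      (ih (P := fun w y => P (fun i => w (some i)) (fun o => o.elim (w none) y))
        (b := fun w : Option ι → ℕ => b (fun i => w (some i)))
        (hb.comp fun i => PF.proj (some i)) ?_)).congr fun v => ?_
    · refine (hP.subst (f := fun s w => Sum.elim (fun i => w (Sum.inl (some i)))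
        (fun o : Option κ => o.elim (w (Sum.inl none)) (fun j => w (Sum.inr j))) s) ?_).congr
        fun w => Iff.rfl
      intro s
      cases s with
      | inl i => exact PF.proj (Sum.inl (some i))
      | inr o =>
        cases o with
        | none => exact PF.proj (Sum.inl none)
        | some j => exact PF.proj (Sum.inr j)
    · constructor
      · rintro ⟨y, h1, h2⟩
        refine ⟨y none, h1 _, fun j => y (some j), fun i => h1 _, ?_⟩
        have : (fun o : Option κ => o.elim (y none) fun j => y (some j)) = y := by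
          funext o
          cases o <;> rfl
        rw [this]
        exact h2
      · rintro ⟨x, hx, y, h1, h2⟩
        refine ⟨fun o => o.elim x y, fun i => ?_, h2⟩
        cases i with
        | none => exact hx
        | some j => exact h1 j

end Bd

end Pool.Agent.J4H63.GZ
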