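import Pool.Agent.J4H63.GZ.Link

/-!
# The inclusion `Δ₀ ⊆ E²_*`, and the linking relations are in `E²_*`
-/

namespace Pool.Agent.J4H63.GZ

open MvPolynomial

variable {n : ℕ}

theorem cons_tail (u : Fin (n + 1) → ℕ) :
    (Matrix.vecCons (u 0) (fun i => u i.succ) : Fin (n + 1) → ℕ) = u := by
  funext i
  refine Fin.cases rfl (fun j => rfl) i

theorem E2.rec' {g : (Fin n → ℕ) → ℕ} {h : (Fin (n + 2) → ℕ) → ℕ} {b : (Fin (n + 1) → ℕ) → ℕ}
    (hg : E2 n g) (hh : E2 (n + 2) h) (hb : E2 (n + 1) b)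
    (hle : ∀ v y, Nat.rec (motive := fun _ => ℕ) (g v)
      (fun y r => h (Matrix.vecCons r (Matrix.vecCons y v))) y ≤ b (Matrix.vecCons y v)) :
    E2 (n + 1) (fun u => Nat.rec (motive := fun _ => ℕ) (g (fun i => u i.succ))
      (fun y r => h (Matrix.vecCons r (Matrix.vecCons y (fun i => u i.succ)))) (u 0)) := by
  refine E2.lrec hg hh hb (fun u => ?_) (fun v => rfl) (fun v y => rfl)
  have := hle (fun i => u i.succ) (u 0)
  rwa [cons_tail] at this

theorem E2.constf (c : ℕ) : E2 n (fun _ => c) := by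
  induction c with
  | zero => exact E2.zero
  | succ c ih => exact E2.comp1 (g := fun x => x + 1) E2.succ ih

theorem E2.mulf {a b : (Fin n → ℕ) → ℕ} (ha : E2 n a) (hb : E2 n b) :
    E2 n (fun v => a v * b v) := by
  have h := E2.sub (E2.sub (E2.comp2 (g := fun x y => (x + 1) * (y + 1)) E2.mul ha hb)
    (E2.add ha hb)) E2.one
  have e : (fun v => a v * b v) = fun v => (a v + 1) * (b v + 1) - (a v + b v) - 1 := by
    funext v
    have : (a v + 1) * (b v + 1) = a v * b v + (a v + b v) + 1 := by ring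
    omega
  rw [e]
  exact h

theorem E2.poly (p : MvPolynomial (Fin n) ℕ) : E2 n (fun v => eval v p) := by
  induction p using MvPolynomial.induction_on with
  | C a =>
    simp only [eval_C]
    exact E2.constf a
  | add p q hp hq =>
    simp only [map_add]
    exact E2.add hp hq
  | mul_X p i hp =>
    simp only [map_mul, eval_X]
    exact E2.mulf hp (E2.proj i)

theorem E2star.not {P : (Fin n → ℕ) → Prop} (hP : E2star n P) : E2star n (fun v => ¬ P v) := by
  obtain ⟨f, hf, hf'⟩ := hP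
  refine ⟨_, E2.sub E2.one hf, fun v => ⟨fun h => ?_, fun h => ?_⟩⟩
  · rw [(hf' v).2 h]
  · rw [(hf' v).1 (not_not.1 h)]

theorem E2star.and {P Q : (Fin n → ℕ) → Prop} (hP : E2star n P) (hQ : E2star n Q) :
    E2star n (fun v => P v ∧ Q v) := by
  obtain ⟨f, hf, hf'⟩ := hP
  obtain ⟨g, hg, hg'⟩ := hQ
  refine ⟨_, E2.sg (E2.add hf hg), fun v => ⟨fun h => ?_, fun h => ?_⟩⟩
  · rw [(hf' v).1 h.1, (hg' v).1 h.2]
    rfl
  · rw [if_neg]
    intro h0
    by_cases h1 : P v
    · by_cases h2 : Q v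
      · exact h ⟨h1, h2⟩
      · have := (hg' v).2 h2
        omega
    · have := (hf' v).2 h1
      omega

theorem E2star.or {P Q : (Fin n → ℕ) → Prop} (hP : E2star n P) (hQ : E2star n Q) :
    E2star n (fun v => P v ∨ Q v) := by
  have h := (hP.not.and hQ.not).not
  have e : (fun v => P v ∨ Q v) = fun v => ¬ (¬ P v ∧ ¬ Q v) := by
    funext v
    exact propext (by tauto)
  rw [e]
  exact h

theorem E2star.le {a b : (Fin n → ℕ) → ℕ} (ha : E2 n a) (hb : E2 n b) :
    E2star n (fun v => a v ≤ b v) := by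
  refine ⟨_, E2.sg (E2.sub ha hb), fun v => ⟨fun h => ?_, fun h => ?_⟩⟩
  · rw [if_pos]; omega
  · rw [if_neg]; omega

theorem E2star.comp {m : ℕ} {P : (Fin m → ℕ) → Prop} (hP : E2star m P)
    {r : Fin m → (Fin n → ℕ) → ℕ} (hr : ∀ i, E2 n (r i)) : E2star n (fun v => P (fun i => r i v)) := by
  obtain ⟨f, hf, hf'⟩ := hP
  exact ⟨_, E2.comp hf hr, fun v => hf' _⟩

theorem E2.cons {f : (Fin n → ℕ) → ℕ} {m : ℕ} {F : Fin m → (Fin n → ℕ) → ℕ} (hf : E2 n f)
    (hF : ∀ i, E2 n (F i)) : ∀ i, E2 n (fun v => (Matrix.vecCons (f v) (fun j => F j v) :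
      Fin (m + 1) → ℕ) i) := by
  intro i
  refine Fin.cases hf (fun j => hF j) i

theorem E2star.ex {P : (Fin (n + 1) → ℕ) → Prop} (hP : E2star (n + 1) P) {p : (Fin n → ℕ) → ℕ}
    (hp : E2 n p) : E2star n (fun v => ∃ x, x ≤ p v ∧ P (Matrix.vecCons x v)) := by
  obtain ⟨f, hf, hf'⟩ := hP
  have hrec := E2.rec' (n := n) (g := fun _ => 1)
    (h := fun w => w 0 * f (fun i => Matrix.vecCons (w 1) (fun i => w i.succ.succ) i))
    (b := fun _ => 1) E2.one (E2.mulf (E2.proj 0) (E2.comp hf (E2.cons (E2.proj 1)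
      fun i => E2.proj _))) E2.one
  set F : (Fin n → ℕ) → ℕ → ℕ := fun v y => Nat.rec (motive := fun _ => ℕ) 1
    (fun y r => r * f (Matrix.vecCons y v)) y with hF
  have hspec : ∀ v y, (F v y = 0 ∧ ∃ x < y, P (Matrix.vecCons x v)) ∨
      (F v y = 1 ∧ ¬ ∃ x < y, P (Matrix.vecCons x v)) := by
    intro v y
    induction y with
    | zero => exact Or.inr ⟨rfl, by simp⟩
    | succ y ih =>
      have e : F v (y + 1) = F v y * f (Matrix.vecCons y v) := rfl
      rcases ih with ⟨h1, x, hx, hx'⟩ | ⟨h1, h2⟩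
      · exact Or.inl ⟨by rw [e, h1, zero_mul], x, by omega, hx'⟩
      · by_cases hPy : P (Matrix.vecCons y v)
        · exact Or.inl ⟨by rw [e, (hf' _).1 hPy, mul_zero], y, by omega, hPy⟩
        · refine Or.inr ⟨by rw [e, (hf' _).2 hPy, h1], ?_⟩
          rintro ⟨x, hx, hx'⟩
          rcases Nat.lt_succ_iff_lt_or_eq.1 hx with h | rfl
          · exact h2 ⟨x, h, hx'⟩
          · exact hPy hx'
  have hrec' : E2 (n + 1) (fun u => F (fun i => u i.succ) (u 0)) := by
    refine hrec ?_
    intro v y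
    rcases hspec v y with ⟨h, _⟩ | ⟨h, _⟩
    · exact (le_of_eq h).trans (Nat.zero_le _)
    · exact le_of_eq h
  refine ⟨fun v => F v (p v + 1), ?_, fun v => ⟨fun h => ?_, fun h => ?_⟩⟩
  · exact E2.comp hrec' (E2.cons (E2.add hp E2.one) fun i => E2.proj i)
  · rcases hspec v (p v + 1) with ⟨h1, _⟩ | ⟨_, h2⟩
    · exact h1
    · obtain ⟨x, hx, hx'⟩ := h
      exact absurd ⟨x, by omega, hx'⟩ h2
  · rcases hspec v (p v + 1) with ⟨_, x, hx, hx'⟩ | ⟨h1, _⟩
    · exact absurd ⟨x, by omega, hx'⟩ h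
    · exact h1

theorem e2star_of_delta0 {P : (Fin n → ℕ) → Prop} (hP : Delta0 n P) : E2star n P := by
  induction hP with
  | eq p q => exact E2star.eqf (E2.poly p) (E2.poly q)
  | le p q => exact E2star.le (E2.poly p) (E2.poly q)
  | not _ ih => exact ih.not
  | and _ _ ih1 ih2 => exact ih1.and ih2
  | ex p _ ih => exact ih.ex (E2.poly p)

/-! ### The parity and the second involution -/

/-- change the last binary digit -/
def eps (a : ℕ) : ℕ := a + 1 - 2 * (a % 2)

theorem E2.par1 : E2 1 (fun v => v 0 % 2) := by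
  have h := E2.rec' (n := 0) (g := fun _ => 0) (h := fun w => 1 - w 0) (b := fun _ => 1) E2.zero
    (E2.sub E2.one (E2.proj 0)) E2.one
  have e : ∀ y : ℕ, Nat.rec (motive := fun _ => ℕ) 0 (fun _ r => 1 - r) y = y % 2 := by
    intro y
    induction y with
    | zero => rfl
    | succ y ih =>
      change 1 - Nat.rec (motive := fun _ => ℕ) 0 (fun _ r => 1 - r) y = _
      rw [ih]
      omega
  have h2 := h (fun v y => by
    change Nat.rec (motive := fun _ => ℕ) 0 (fun _ r => 1 - r) y ≤ 1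
    rw [e]
    omega)
  have e2 : (fun v : Fin 1 → ℕ => v 0 % 2) = fun u => Nat.rec (motive := fun _ => ℕ) 0
      (fun _ r => 1 - r) (u 0) := by
    funext u
    rw [e]
  rw [e2]
  exact h2

theorem E2.eps {a : (Fin n → ℕ) → ℕ} (ha : E2 n a) : E2 n (fun v => GZ.eps (a v)) :=
  E2.sub (E2.add ha E2.one) (E2.mulf (E2.constf 2) (E2.comp1 (g := fun x => x % 2) E2.par1 ha))

theorem eps_eps (a : ℕ) : eps (eps a) = a := by
  unfold eps
  omega

theorem eps_div (a : ℕ) : eps a / 2 = a / 2 := by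
  unfold eps
  omega

theorem eq_or_eps {a b : ℕ} (h : b / 2 = a / 2) : b = a ∨ b = eps a := by
  unfold eps
  omega

/-! ### Orbits -/

section

variable {τ : ℕ → ℕ}

/-- the composite of the two involutions -/
def rho (τ : ℕ → ℕ) (a : ℕ) : ℕ := eps (τ a)

theorem rho_inj (hτ : ∀ x, τ (τ x) = x) : Function.Injective (rho τ) := by
  intro a b h
  unfold rho at h
  have h1 := congrArg eps h
  rw [eps_eps, eps_eps] at h1
  have h2 := congrArg τ h1
  rwa [hτ, hτ] at h2

theorem iter_lt {N : ℕ} (hN : ∀ a < N, rho τ a < N) {x : ℕ} (hx : x < N) :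
    ∀ j, (rho τ)^[j] x < N := by
  intro j
  induction j with
  | zero => exact hx
  | succ j ih =>
    rw [Function.iterate_succ_apply']
    exact hN _ ih

theorem exists_period (hτ : ∀ x, τ (τ x) = x) {N : ℕ} (hN : ∀ a < N, rho τ a < N) {x : ℕ}
    (hx : x < N) : ∃ k, 0 < k ∧ k ≤ N ∧ (rho τ)^[k] x = x := by
  have hcard : (Finset.range N).card < (Finset.range (N + 1)).card := by simp
  obtain ⟨i, hi, j, hj, hij, he⟩ := Finset.exists_ne_map_eq_of_card_lt_of_maps_to hcard
    (f := fun j => (rho τ)^[j] x) (fun j _ => by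
      rw [Finset.mem_coe, Finset.mem_range]
      exact iter_lt hN hx j)
  rw [Finset.mem_range] at hi hj
  have main : ∀ i j : ℕ, i < j → j < N + 1 → (rho τ)^[i] x = (rho τ)^[j] x →
      ∃ k, 0 < k ∧ k ≤ N ∧ (rho τ)^[k] x = x := by
    intro i j hij hj he
    refine ⟨j - i, by omega, by omega, ?_⟩
    have h1 : (rho τ)^[i] ((rho τ)^[j - i] x) = (rho τ)^[i] x := by
      rw [← Function.iterate_add_apply, show i + (j - i) = j by omega, he]
    exact (rho_inj hτ).iterate i h1
  rcases lt_or_gt_of_ne hij with h | h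
  · exact main i j h hj he
  · exact main j i h hi he.symm

/-- the inverse of `rho` stays in the forward orbit -/
theorem sigma_orbit (hτ : ∀ x, τ (τ x) = x) {N : ℕ} (hN : ∀ a < N, rho τ a < N) {x : ℕ}
    (hx : x < N) (j : ℕ) : ∃ m, τ (eps ((rho τ)^[j] x)) = (rho τ)^[m] x := by
  have hinv : ∀ a, τ (eps (rho τ a)) = a := fun a => by
    unfold rho
    rw [eps_eps, hτ]
  cases j with
  | succ j =>
    refine ⟨j, ?_⟩
    rw [Function.iterate_succ_apply', hinv]
  | zero =>
    obtain ⟨k, hk, _, hk'⟩ := exists_period hτ hN hx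
    obtain ⟨k, rfl⟩ : ∃ k', k = k' + 1 := ⟨k - 1, by omega⟩
    refine ⟨k, ?_⟩
    change τ (eps x) = _
    conv_lhs => rw [← hk', Function.iterate_succ_apply', hinv]

theorem tau_orbit (hτ : ∀ x, τ (τ x) = x) {N : ℕ} (hN : ∀ a < N, rho τ a < N) {x : ℕ}
    (hx : τ x < N) (j : ℕ) : ∃ m, τ ((rho τ)^[j] x) = (rho τ)^[m] (τ x) := by
  induction j with
  | zero => exact ⟨0, rfl⟩
  | succ j ih =>
    obtain ⟨m, hm⟩ := ih
    rw [Function.iterate_succ_apply']
    have h1 : τ (rho τ ((rho τ)^[j] x)) = τ (eps (τ ((rho τ)^[j] x))) := rfl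
    rw [h1, hm]
    exact sigma_orbit hτ hN hx m

theorem linked_tau (τ : ℕ → ℕ) (a : ℕ) : Linked τ a (τ a) :=
  Relation.ReflTransGen.single (Or.inl rfl)

theorem linked_eps (τ : ℕ → ℕ) (a : ℕ) : Linked τ a (eps a) :=
  Relation.ReflTransGen.single (Or.inr (eps_div a))

theorem linked_iter (τ : ℕ → ℕ) (j : ℕ) (a : ℕ) : Linked τ a ((rho τ)^[j] a) := by
  induction j with
  | zero => exact Relation.ReflTransGen.refl
  | succ j ih =>
    rw [Function.iterate_succ_apply']
    exact ih.trans ((linked_tau τ _).trans (linked_eps τ _))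

theorem linked_orbit (hτ : ∀ x, τ (τ x) = x) {N : ℕ} (hN : ∀ a < N, rho τ a < N) {x : ℕ}
    (hx : x < N) (hx' : τ x < N) (y : ℕ) :
    Linked τ x y ↔ ∃ j ≤ N, (rho τ)^[j] x = y ∨ (rho τ)^[j] (τ x) = y := by
  constructor
  · intro h
    have h2 : ∃ j, (rho τ)^[j] x = y ∨ (rho τ)^[j] (τ x) = y := by
      induction h with
      | refl => exact ⟨0, Or.inl rfl⟩
      | @tail b c _ hbc ih =>
        obtain ⟨j, hj⟩ := ih
        have htau : ∃ m, (rho τ)^[m] x = τ b ∨ (rho τ)^[m] (τ x) = τ b := by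
          rcases hj with rfl | rfl
          · obtain ⟨m, hm⟩ := tau_orbit hτ hN hx' j
            exact ⟨m, Or.inr hm.symm⟩
          · obtain ⟨m, hm⟩ := tau_orbit (x := τ x) hτ hN (by rw [hτ]; exact hx) j
            rw [hτ] at hm
            exact ⟨m, Or.inl hm.symm⟩
        rcases hbc with rfl | hbc
        · exact htau
        · rcases eq_or_eps hbc with rfl | rfl
          · exact ⟨j, hj⟩
          · obtain ⟨m, hm⟩ := htau
            refine ⟨m + 1, ?_⟩
            rw [Function.iterate_succ_apply', Function.iterate_succ_apply']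
            rcases hm with hm | hm
            · left
              rw [hm]
              unfold rho
              rw [hτ]
            · right
              rw [hm]
              unfold rho
              rw [hτ]
    obtain ⟨j, hj⟩ := h2
    rcases hj with hj | hj
    · obtain ⟨k, hk, hkN, hk'⟩ := exists_period hτ hN hx
      refine ⟨j % k, (Nat.mod_lt _ hk).le.trans hkN, Or.inl ?_⟩
      have : Function.IsPeriodicPt (rho τ) k x := hk'
      rw [this.iterate_mod_apply, hj]
    · obtain ⟨k, hk, hkN, hk'⟩ := exists_period hτ hN hx'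
      refine ⟨j % k, (Nat.mod_lt _ hk).le.trans hkN, Or.inr ?_⟩
      have : Function.IsPeriodicPt (rho τ) k (τ x) := hk'
      rw [this.iterate_mod_apply, hj]
  · rintro ⟨j, _, rfl | rfl⟩
    · exact linked_iter τ j x
    · exact (linked_tau τ x).trans (linked_iter τ j _)

end

/-! ### The family is in `E²` -/

section

variable {K : ℕ} {τ : (Fin (K + 1) → ℕ) → ℕ → ℕ}

theorem InvFamily.lt (hτ : InvFamily K τ) (p : Fin (K + 1) → ℕ) {N x : ℕ} (hN : p 0 ≤ N)
    (hx : x < N) : τ p x < N := by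
  by_contra h
  have h1 := hτ.fix p (τ p x) (by omega)
  rw [hτ.inv] at h1
  omega

theorem InvFamily.rho_lt (hτ : InvFamily K τ) (p : Fin (K + 1) → ℕ) {N : ℕ} (hN : p 0 ≤ 2 * N) :
    ∀ a < 2 * N, rho (τ p) a < 2 * N := by
  intro a ha
  have h1 := hτ.lt p hN ha
  unfold rho eps
  omega

theorem InvFamily.e2 (hτ : InvFamily K τ) :
    E2 (K + 2) (fun u => τ (fun i => u i.succ) (u 0)) := by
  obtain ⟨f, hf, hf'⟩ := e2star_of_delta0 hτ.graph
  -- the vector of `f` is `x, x', p`
  have hrec := E2.rec' (n := K + 2) (g := fun _ => 0)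
    (h := fun w => w 0 * f (fun i => Matrix.vecCons (w 2) (Matrix.vecCons (w 1)
      (fun i => w i.succ.succ.succ)) i) + w 1 * (1 - f (fun i => Matrix.vecCons (w 2)
        (Matrix.vecCons (w 1) (fun i => w i.succ.succ.succ)) i)))
    (b := fun u => u 0) E2.zero ?_ (E2.proj 0)
  · set F : (Fin (K + 2) → ℕ) → ℕ → ℕ := fun u y => Nat.rec (motive := fun _ => ℕ) 0
      (fun y r => r * f (Matrix.vecCons (u 0) (Matrix.vecCons y (fun i => u i.succ))) +
        y * (1 - f (Matrix.vecCons (u 0) (Matrix.vecCons y (fun i => u i.succ))))) y with hF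
    have hspec : ∀ u y, (F u y = τ (fun i => u i.succ) (u 0) ∧ τ (fun i => u i.succ) (u 0) < y) ∨
        (F u y = 0 ∧ y ≤ τ (fun i => u i.succ) (u 0)) := by
      intro u y
      induction y with
      | zero => exact Or.inr ⟨rfl, Nat.zero_le _⟩
      | succ y ih =>
        have e : F u (y + 1) = F u y * f (Matrix.vecCons (u 0) (Matrix.vecCons y
          (fun i => u i.succ))) + y * (1 - f (Matrix.vecCons (u 0) (Matrix.vecCons y
            (fun i => u i.succ)))) := rfl
        by_cases hy : τ (fun i => u i.succ) (u 0) = y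
        · left
          have h1 := (hf' (Matrix.vecCons (u 0) (Matrix.vecCons y (fun i => u i.succ)))).1 hy
          rw [e, h1]
          omega
        · have h1 := (hf' (Matrix.vecCons (u 0) (Matrix.vecCons y (fun i => u i.succ)))).2 hy
          rw [e, h1]
          rcases ih with ⟨h2, h3⟩ | ⟨h2, h3⟩
          · left
            rw [h2]
            omega
          · right
            rw [h2]
            omega
    have hrec' : E2 (K + 3) (fun u => F (fun i => u i.succ) (u 0)) := by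
      refine hrec fun v y => ?_
      change F v y ≤ y
      rcases hspec v y with ⟨h1, h2⟩ | ⟨h1, _⟩ <;> omega
    have h3 : E2 (K + 2) (fun u => F u (u 0 + u 1 + 1)) :=
      E2.comp hrec' (E2.cons (E2.add (E2.add (E2.proj 0) (E2.proj 1)) E2.one) fun i => E2.proj i)
    have e : (fun u : Fin (K + 2) → ℕ => τ (fun i => u i.succ) (u 0)) =
        fun u => F u (u 0 + u 1 + 1) := by
      funext u
      have h4 := hτ.lt (fun i => u i.succ) (N := u 0 + u 1 + 1) (x := u 0)
        (by change u 1 ≤ _; omega) (by omega)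
      rcases hspec u (u 0 + u 1 + 1) with ⟨h1, _⟩ | ⟨_, h2⟩
      · exact h1.symm
      · omega
    rw [e]
    exact h3
  · have hfc := E2.comp (n := K + 4) hf (E2.cons (E2.proj 2) (E2.cons (E2.proj 1)
      fun i : Fin (K + 1) => E2.proj i.succ.succ.succ))
    exact E2.add (E2.mulf (E2.proj 0) hfc) (E2.mulf (E2.proj 1) (E2.sub E2.one hfc))

theorem InvFamily.iter (hτ : InvFamily K τ) :
    E2 (K + 3) (fun u => (rho (τ (fun i => u i.succ.succ)))^[u 0] (u 1)) := by
  have hrec := E2.rec' (n := K + 2) (g := fun u => u 0)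
    (h := fun w => eps (τ (fun i => w i.succ.succ.succ) (w 0)))
    (b := fun u => u 1 + u 2 + 1) (E2.proj 0) ?_
    (E2.add (E2.add (E2.proj 1) (E2.proj 2)) E2.one)
  · have e : ∀ (v : Fin (K + 2) → ℕ) (y : ℕ), Nat.rec (motive := fun _ => ℕ) (v 0)
        (fun _ r => eps (τ (fun i => v i.succ) r)) y = (rho (τ (fun i => v i.succ)))^[y] (v 0) := by
      intro v y
      induction y with
      | zero => rfl
      | succ y ih =>
        rw [Function.iterate_succ_apply', ← ih]
        rfl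
    have hrec' := hrec (fun v y => by
      change Nat.rec (motive := fun _ => ℕ) (v 0)
        (fun _ r => eps (τ (fun i => v i.succ) r)) y ≤ v 0 + v 1 + 1
      rw [e]
      have h := iter_lt (τ := τ (fun i => v i.succ)) (x := v 0)
        (hτ.rho_lt (fun i => v i.succ) (N := (v 0 + v 1 + 2) / 2) ?_) ?_ y
      · omega
      · change v 1 ≤ _
        omega
      · omega)
    refine Eq.mp ?_ hrec'
    congr 1
    funext u
    exact e (fun i => u i.succ) (u 0)
  · have := E2.comp (n := K + 4) hτ.e2 (E2.cons (E2.proj 0)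
      fun i : Fin (K + 1) => E2.proj i.succ.succ.succ)
    exact E2.eps this

theorem InvFamily.e2star (hτ : InvFamily K τ) : E2star (K + 3) (LinkRel τ) := by
  have h1 : E2star (K + 4) (fun u => (rho (τ (fun i => u i.succ.succ.succ)))^[u 0] (u 1) = u 2) :=
    E2star.eqf (E2.comp hτ.iter (E2.cons (E2.proj 0) (E2.cons (E2.proj 1)
      fun i : Fin (K + 1) => E2.proj i.succ.succ.succ))) (E2.proj 2)
  have h2 : E2star (K + 4) (fun u => (rho (τ (fun i => u i.succ.succ.succ)))^[u 0]
      (τ (fun i => u i.succ.succ.succ) (u 1)) = u 2) :=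
    E2star.eqf (E2.comp hτ.iter (E2.cons (E2.proj 0) (E2.cons (E2.comp hτ.e2 (E2.cons (E2.proj 1)
      fun i : Fin (K + 1) => E2.proj i.succ.succ.succ))
      fun i : Fin (K + 1) => E2.proj i.succ.succ.succ))) (E2.proj 2)
  have h3 := (h1.or h2).ex (n := K + 3) (p := fun v => v 0 + v 2 + 2)
    (E2.add (E2.add (E2.proj 0) (E2.proj 2)) (E2.constf 2))
  refine Eq.mp ?_ h3
  congr 1
  funext v
  refine propext ?_
  set p : Fin (K + 1) → ℕ := fun i => v i.succ.succ with hp
  have hN : p 0 ≤ 2 * ((v 0 + v 2 + 2) / 2) := by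
    change v 2 ≤ _
    omega
  have h5 := linked_orbit (τ := τ p) (hτ.inv p) (x := v 0) (hτ.rho_lt p hN) (by omega)
    (hτ.lt p hN (by omega)) (v 1)
  change (∃ x, x ≤ v 0 + v 2 + 2 ∧ ((rho (τ p))^[x] (v 0) = v 1 ∨
    (rho (τ p))^[x] (τ p (v 0)) = v 1)) ↔ Linked (τ p) (v 0) (v 1)
  rw [h5]
  constructor
  · intro h
    exact h5.1 (by
      obtain ⟨x, _, h⟩ := h
      rcases h with h | h
      · rw [← h]
        exact linked_iter _ _ _
      · rw [← h]
        exact (linked_tau _ _).trans (linked_iter _ _ _))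
  · rintro ⟨j, hj, h⟩
    exact ⟨j, by omega, h⟩

end

end Pool.Agent.J4H63.GZ
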