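import Mathlib

/-!
# Bounded formulas and the Grzegorczyk class `E²`: definitions
-/

namespace Pool.Agent.J4H63.GZ

/-- The `Δ₀`-definable predicates on `ℕ ^ n`: equations and inequalities between polynomials,
Boolean combinations, and quantifiers bounded by polynomials. -/
inductive Delta0 : (n : ℕ) → ((Fin n → ℕ) → Prop) → Prop
  | eq {n : ℕ} (p q : MvPolynomial (Fin n) ℕ) :
      Delta0 n (fun v => MvPolynomial.eval v p = MvPolynomial.eval v q)
  | le {n : ℕ} (p q : MvPolynomial (Fin n) ℕ) :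
      Delta0 n (fun v => MvPolynomial.eval v p ≤ MvPolynomial.eval v q)
  | not {n : ℕ} {P : (Fin n → ℕ) → Prop} : Delta0 n P → Delta0 n (fun v => ¬ P v)
  | and {n : ℕ} {P Q : (Fin n → ℕ) → Prop} :
      Delta0 n P → Delta0 n Q → Delta0 n (fun v => P v ∧ Q v)
  | ex {n : ℕ} {P : (Fin (n + 1) → ℕ) → Prop} (p : MvPolynomial (Fin n) ℕ) :
      Delta0 (n + 1) P → Delta0 n (fun v => ∃ x, x ≤ MvPolynomial.eval v p ∧
        P (Matrix.vecCons x v))

/-- Grzegorczyk's class `E²`: the functions obtained from zero, the successor, the projections and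
`(x + 1) (y + 1)` by composition and limited recursion. -/
inductive E2 : (n : ℕ) → ((Fin n → ℕ) → ℕ) → Prop
  | zero {n : ℕ} : E2 n (fun _ => 0)
  | succ : E2 1 (fun v => v 0 + 1)
  | proj {n : ℕ} (i : Fin n) : E2 n (fun v => v i)
  | mul : E2 2 (fun v => (v 0 + 1) * (v 1 + 1))
  | comp {n m : ℕ} {g : (Fin m → ℕ) → ℕ} {hs : Fin m → (Fin n → ℕ) → ℕ} :
      E2 m g → (∀ i, E2 n (hs i)) → E2 n (fun v => g (fun i => hs i v))
  | lrec {n : ℕ} {g : (Fin n → ℕ) → ℕ} {h : (Fin (n + 2) → ℕ) → ℕ} {b : (Fin (n + 1) → ℕ) → ℕ}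
      {F : (Fin (n + 1) → ℕ) → ℕ} : E2 n g → E2 (n + 2) h → E2 (n + 1) b →
      (∀ v, F v ≤ b v) → (∀ v, F (Matrix.vecCons 0 v) = g v) →
      (∀ v y, F (Matrix.vecCons (y + 1) v) =
        h (Matrix.vecCons (F (Matrix.vecCons y v)) (Matrix.vecCons y v))) → E2 (n + 1) F

/-- The class `E²_*`: predicates whose characteristic function (`0` for true, `1` for false) is in
`E²`. -/
def E2star (n : ℕ) (R : (Fin n → ℕ) → Prop) : Prop :=
  ∃ f, E2 n f ∧ ∀ v, (R v → f v = 0) ∧ (¬ R v → f v = 1)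

/-- `R ⊆ ℕ ^ K` is `Δ₀`-definable with advice and errors: there are a `Δ₀` predicate `S` and a
constant `c` such that for every `z` there are a bound `Z` between `z` and `(z + 2) ^ c` and an
advice `a ≤ (z + 2) ^ c` for which `R (v)` and `S (a, v)` differ for at most
`(Z + 1) ^ (K (1 - 1 / m))` of the `(Z + 1) ^ K` vectors `v` with entries at most `Z`. -/
def NearDelta0 (m K : ℕ) (R : (Fin K → ℕ) → Prop) : Prop :=
  ∃ (S : (Fin (K + 1) → ℕ) → Prop) (c : ℕ), Delta0 (K + 1) S ∧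
    ∀ z : ℕ, ∃ Z a : ℕ, z ≤ Z ∧ Z ≤ (z + 2) ^ c ∧ a ≤ (z + 2) ^ c ∧
      {v : Fin K → ℕ | (∀ i, v i ≤ Z) ∧ ¬ (R v ↔ S (Matrix.vecCons a v))}.ncard ^ m ≤
        (Z + 1) ^ (K * (m - 1))

end Pool.Agent.J4H63.GZ
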