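import Pool.Agent.J4H63.GZ.Bd

/-!
# Some functions of the class `E²`
-/

namespace Pool.Agent.J4H63.GZ

open MvPolynomial

variable {n : ℕ}

theorem E2.comp1 {g : ℕ → ℕ} (hg : E2 1 (fun v => g (v 0))) {a : (Fin n → ℕ) → ℕ} (ha : E2 n a) :
    E2 n (fun v => g (a v)) := E2.comp hg (hs := fun _ => a) fun _ => ha

theorem E2.comp2 {g : ℕ → ℕ → ℕ} (hg : E2 2 (fun v => g (v 0) (v 1))) {a b : (Fin n → ℕ) → ℕ}
    (ha : E2 n a) (hb : E2 n b) : E2 n (fun v => g (a v) (b v)) :=
  E2.comp hg (hs := ![a, b]) fun i => by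
    refine Fin.cases ha (fun j => ?_) i
    rw [Subsingleton.elim j 0]
    exact hb

theorem E2.one : E2 n (fun _ => 1) := E2.comp1 (g := fun x => x + 1) E2.succ E2.zero

theorem E2.pred1 : E2 1 (fun v => v 0 - 1) := by
  refine E2.lrec (n := 0) (g := fun _ => 0) (h := fun v => v 1) (b := fun v => v 0) E2.zero
    (E2.proj 1) (E2.proj 0) (fun v => Nat.sub_le _ _) (fun v => rfl) fun v y => ?_
  simp

theorem E2.sub2' : E2 2 (fun v => v 1 - v 0) := by
  refine E2.lrec (n := 1) (g := fun v => v 0) (h := fun v => v 0 - 1) (b := fun v => v 1)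
    (E2.proj 0) (E2.comp1 (g := fun x => x - 1) E2.pred1 (E2.proj 0)) (E2.proj 1)
    (fun v => Nat.sub_le _ _) (fun v => ?_) fun v y => ?_
  · simp
  · simp only [Matrix.cons_val_one, Matrix.cons_val_zero]
    omega

theorem E2.sub {a b : (Fin n → ℕ) → ℕ} (ha : E2 n a) (hb : E2 n b) : E2 n (fun v => a v - b v) :=
  E2.comp2 (g := fun x y => y - x) E2.sub2' hb ha

theorem E2.add2 : E2 2 (fun v => v 0 + v 1) := by
  refine E2.lrec (n := 1) (g := fun v => v 0) (h := fun v => v 0 + 1)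
    (b := fun v => (v 0 + 1) * (v 1 + 1)) (E2.proj 0)
    (E2.comp1 (g := fun x => x + 1) E2.succ (E2.proj 0)) E2.mul (fun v => ?_) (fun v => ?_)
    fun v y => ?_
  · nlinarith [Nat.zero_le (v 0 * v 1)]
  · simp
  · simp only [Matrix.cons_val_one, Matrix.cons_val_zero]
    omega

theorem E2.add {a b : (Fin n → ℕ) → ℕ} (ha : E2 n a) (hb : E2 n b) : E2 n (fun v => a v + b v) :=
  E2.comp2 (g := fun x y => x + y) E2.add2 ha hb

theorem E2.sg1 : E2 1 (fun v => if v 0 = 0 then 0 else 1) := by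
  refine E2.lrec (n := 0) (g := fun _ => 0) (h := fun _ => 1) (b := fun _ => 1) E2.zero
    E2.one E2.one (fun v => ?_) (fun v => rfl) fun v y => ?_
  · split_ifs <;> omega
  · simp

theorem E2.sg {a : (Fin n → ℕ) → ℕ} (ha : E2 n a) : E2 n (fun v => if a v = 0 then 0 else 1) :=
  E2.comp1 (g := fun x => if x = 0 then 0 else 1) E2.sg1 ha

theorem E2.minf {a b : (Fin n → ℕ) → ℕ} (ha : E2 n a) (hb : E2 n b) :
    E2 n (fun v => min (a v) (b v)) := by
  have h := E2.sub ha (E2.sub ha hb)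
  have e : (fun v => min (a v) (b v)) = fun v => a v - (a v - b v) := by
    funext v; omega
  rw [e]
  exact h

theorem E2star.eqf {a b : (Fin n → ℕ) → ℕ} (ha : E2 n a) (hb : E2 n b) :
    E2star n (fun v => a v = b v) := by
  refine ⟨_, E2.sg (E2.add (E2.sub ha hb) (E2.sub hb ha)), fun v => ⟨fun h => ?_, fun h => ?_⟩⟩
  · rw [if_pos]; omega
  · rw [if_neg]; omega

/-- substitution of variables -/
theorem E2.projs {m : ℕ} {f : (Fin m → ℕ) → ℕ} (hf : E2 m f) (e : Fin m → Fin n) :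
    E2 n (fun v => f (fun i => v (e i))) :=
  E2.comp (hs := fun i v => v (e i)) hf fun _ => E2.proj _

/-! ### Finite conjunctions, minima -/

theorem Bd.allFin {ι : Type} (m : ℕ) {P : Fin m → (ι → ℕ) → Prop} (hP : ∀ i, Bd (P i)) :
    Bd (fun v => ∀ i, P i v) := by
  induction m with
  | zero =>
    exact (Bd.eqf (PF.const 0) (PF.const 0)).congr fun v => by simp
  | succ m ih =>
    exact (Bd.and (hP 0) (ih fun i => hP i.succ)).congr fun v => Fin.forall_fin_succ

theorem Bd.eq_min {ι : Type} {f a b : (ι → ℕ) → ℕ} (hf : PF f) (ha : PF a) (hb : PF b) :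
    Bd (fun v => f v = Min.min (a v) (b v)) :=
  (Bd.or (Bd.and (Bd.lef ha hb) (Bd.eqf hf ha)) (Bd.and (Bd.lef hb ha) (Bd.eqf hf hb))).congr
    fun v => by omega

/-- functions with a `Δ₀` graph and a polynomial bound -/
def Nice (f : (Fin n → ℕ) → ℕ) : Prop :=
  Bd (fun u : Option (Fin n) → ℕ => f (fun i => u (some i)) = u none) ∧
    ∃ b : (Fin n → ℕ) → ℕ, PF b ∧ ∀ v, f v ≤ b v

theorem Nice.graph {f : (Fin n → ℕ) → ℕ} (hf : Nice f) {ι : Type} {a : Fin n → (ι → ℕ) → ℕ}
    (ha : ∀ i, PF (a i)) {y : (ι → ℕ) → ℕ} (hy : PF y) :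
    Bd (fun v : ι → ℕ => f (fun i => a i v) = y v) := by
  refine (hf.1.subst (f := fun o v => o.elim (y v) (fun i => a i v)) ?_).congr fun v => Iff.rfl
  intro o
  cases o with
  | none => exact hy
  | some i => exact ha i

theorem Nice.of_pf {f : (Fin n → ℕ) → ℕ} (hf : PF f) : Nice f :=
  ⟨Bd.eqf (hf.comp fun i => PF.proj (some i)) (PF.proj none), f, hf, fun _ => le_rfl⟩

theorem Nice.comp {m : ℕ} {g : (Fin m → ℕ) → ℕ} {hs : Fin m → (Fin n → ℕ) → ℕ} (hg : Nice g)
    (hh : ∀ i, Nice (hs i)) : Nice (fun v => g (fun i => hs i v)) := by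
  obtain ⟨bg, hbg, hbg'⟩ := hg.2
  choose b hb hb' using fun i => (hh i).2
  have hB : PF (fun v : Fin n → ℕ => ∑ i, b i v) := PF.sum Finset.univ hb
  have hle : ∀ i v, hs i v ≤ ∑ i, b i v := fun i v =>
    (hb' i v).trans (Finset.single_le_sum (f := fun i => b i v) (fun _ _ => Nat.zero_le _)
      (Finset.mem_univ i))
  refine ⟨?_, fun v => bg (fun i => b i v), hbg.comp hb, fun v => (hbg' _).trans
    (hbg.mono fun i => hb' i v)⟩
  refine (Bd.exVec (Fin m) (ι := Option (Fin n)) (b := fun u => ∑ i, b i (fun j => u (some j)))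
    (P := fun u w => (∀ i, hs i (fun j => u (some j)) = w i) ∧ g w = u none) ?_ ?_).congr
    fun u => ?_
  · exact hB.comp fun j => PF.proj (some j)
  · refine Bd.and (Bd.allFin m fun i => ?_) ?_
    · exact (hh i).graph (fun j => PF.proj (Sum.inl (some j))) (PF.proj (Sum.inr i))
    · exact hg.graph (fun j => PF.proj (Sum.inr j)) (PF.proj (Sum.inl none))
  · constructor
    · intro h
      exact ⟨fun i => hs i (fun j => u (some j)), fun i => hle i _, fun i => rfl, h⟩
    · rintro ⟨w, _, h1, h2⟩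
      rw [← h2]
      change g (fun i => hs i (fun j => u (some j))) = g w
      congr 1
      funext i
      exact h1 i

end Pool.Agent.J4H63.GZ
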