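import Pool.Agent.J4H63.GZ.Rec

/-!
# If `E²_*` is `Δ₀` with advice and few errors then it is `Δ₀`
-/

namespace Pool.Agent.J4H63.GZ

open MvPolynomial

section

variable {n : ℕ} {g : (Fin n → ℕ) → ℕ} {h : (Fin (n + 2) → ℕ) → ℕ}

theorem e2_cut (hg : E2 n g) (hh : E2 (n + 2) h) :
    E2 (n + 2) (fun w => cut g h (w 0) (w 1) (fun i => w i.succ.succ)) := by
  refine E2.lrec (n := n + 1) (g := fun w => min (g (fun i => w i.succ)) (w 0))
    (h := fun w => min (h (Matrix.vecCons (w 0) (Matrix.vecCons (w 1)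
      (fun i => w i.succ.succ.succ)))) (w 2)) (b := fun w => w 1) ?_ ?_ (E2.proj 1)
    (fun v => cut_le _ _ _ _ _) (fun v => rfl) (fun v y => rfl)
  · exact E2.minf (hg.projs _) (E2.proj 0)
  · refine E2.minf ?_ (E2.proj 2)
    have := hh.projs (n := n + 3) (fun i => (Matrix.vecCons 0 (Matrix.vecCons 1
      (fun i => i.succ.succ.succ)) : Fin (n + 2) → Fin (n + 3)) i)
    convert this using 3 with w
    funext i
    refine Fin.cases rfl (fun i => Fin.cases rfl (fun i => rfl) i) i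

/-- the graph of the recursion, cut off at the third argument -/
def cutRel (g : (Fin n → ℕ) → ℕ) (h : (Fin (n + 2) → ℕ) → ℕ) (u : Fin (n + 3) → ℕ) : Prop :=
  cut g h (u 1) (u 2) (fun i => u i.succ.succ.succ) = u 0

theorem e2star_cutRel (hg : E2 n g) (hh : E2 (n + 2) h) : E2star (n + 3) (cutRel g h) := by
  refine E2star.eqf ?_ (E2.proj 0)
  exact (e2_cut hg hh).projs (fun i => i.succ)

theorem nice_rec_of_adv (hadv : Adv (cutRel g h)) (hg : Nice g) (hh : Nice h)
    {F b : (Fin (n + 1) → ℕ) → ℕ} (hb : Nice b) (hFb : ∀ v, F v ≤ b v)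
    (h0 : ∀ v, F (Matrix.vecCons 0 v) = g v)
    (h1 : ∀ v y, F (Matrix.vecCons (y + 1) v) =
        h (Matrix.vecCons (F (Matrix.vecCons y v)) (Matrix.vecCons y v))) : Nice F := by
  obtain ⟨A, hA, Φ, c, hΦ, hadv⟩ := hadv
  refine nice_rec (A := A) (Φ := fun u => Φ (Sum.elim (fun i => u (Sum.inl i))
    (Matrix.vecCons (u (Sum.inr (Sum.inl 0))) (Matrix.vecCons (u (Sum.inr (Sum.inl 1)))
      (Matrix.vecCons (u (Sum.inr (Sum.inl 2))) (fun i => u (Sum.inr (Sum.inr i)))))))) ?_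
    hg hh hb hFb h0 h1 (c := c) ?_
  · refine (hΦ.subst (f := fun s u => Sum.elim (fun i => u (Sum.inl i))
      (Matrix.vecCons (u (Sum.inr (Sum.inl 0))) (Matrix.vecCons (u (Sum.inr (Sum.inl 1)))
        (Matrix.vecCons (u (Sum.inr (Sum.inl 2))) (fun i => u (Sum.inr (Sum.inr i)))))) s)
      ?_).congr fun v => Iff.rfl
    rintro (i | i)
    · exact PF.proj _
    · refine Fin.cases ?_ (fun i => Fin.cases ?_ (fun i => Fin.cases ?_ (fun i => ?_) i) i) i
      · exact PF.proj _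
      · exact PF.proj _
      · exact PF.proj _
      · exact PF.proj _
  · intro m
    obtain ⟨α, hα, hα'⟩ := hadv m
    refine ⟨α, hα, fun w t z v hw ht hz hv => ?_⟩
    have h2 := hα' (Matrix.vecCons w (Matrix.vecCons t (Matrix.vecCons z v))) (by
      intro i
      refine Fin.cases hw (fun i => Fin.cases ht (fun i => Fin.cases hz (fun i => hv i) i) i) i)
    exact h2

end

/-- the class of the numbers `m` for which all predicates in `E²_*` are nearly `Δ₀` -/
theorem nice_of_near {m : ℕ} (hm : 1 ≤ m)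
    (H : ∀ (K : ℕ) (R : (Fin K → ℕ) → Prop), E2star K R → NearDelta0 m K R) {n : ℕ}
    {f : (Fin n → ℕ) → ℕ} (hf : E2 n f) : Nice f := by
  induction hf with
  | zero => exact Nice.of_pf (PF.const 0)
  | succ => exact Nice.of_pf ((PF.proj 0).add (PF.const 1))
  | proj i => exact Nice.of_pf (PF.proj i)
  | mul => exact Nice.of_pf (((PF.proj 0).add (PF.const 1)).mul ((PF.proj 1).add (PF.const 1)))
  | comp _ _ ih1 ih2 => exact Nice.comp ih1 ih2
  | @lrec n g h b F hg hh hb hFb h0 h1 ihg ihh ihb =>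
    refine nice_rec_of_adv (adv_of_near hm (H _ _ ?_)) ihg ihh ihb hFb h0 h1
    exact (e2star_cutRel hg hh).comp_proj (Fin.castAdd _)

theorem delta0_of_near {m : ℕ} (hm : 1 ≤ m)
    (H : ∀ (K : ℕ) (R : (Fin K → ℕ) → Prop), E2star K R → NearDelta0 m K R) {k : ℕ}
    {R : (Fin k → ℕ) → Prop} (hR : E2star k R) : Delta0 k R := by
  obtain ⟨f, hf, hf'⟩ := hR
  have h := (nice_of_near hm H hf).graph (ι := Fin k) (a := fun i v => v i)
    (fun i => PF.proj i) (y := fun _ => 0) (PF.const 0)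
  refine Bd.delta0_iff.2 (h.congr fun v => ⟨fun hR => (hf' v).1 hR, fun h0 => ?_⟩)
  by_contra hR
  have h1 := (hf' v).2 hR
  have h2 : f v = 0 := h0
  omega

theorem near_of_delta0 {m : ℕ} (hm : 1 ≤ m) {k : ℕ} {R : (Fin k → ℕ) → Prop} (hR : Delta0 k R) :
    NearDelta0 m k R := by
  refine ⟨fun u => R (fun i => u i.succ), 1, ?_, fun z => ⟨z, 0, le_rfl, by
    rw [pow_one]; omega, Nat.zero_le _, ?_⟩⟩
  · rw [Bd.delta0_iff] at hR ⊢
    exact (hR.subst (f := fun i (u : Fin (k + 1) → ℕ) => u i.succ) fun i => PF.proj _).congr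
      fun v => Iff.rfl
  · have : {v : Fin k → ℕ | (∀ i, v i ≤ z) ∧
        ¬ (R v ↔ R (fun i => (Matrix.vecCons 0 v : Fin (k + 1) → ℕ) i.succ))} = ∅ := by
      rw [Set.eq_empty_iff_forall_notMem]
      rintro v ⟨_, hv⟩
      exact hv Iff.rfl
    rw [this, Set.ncard_empty, zero_pow (by omega)]
    exact Nat.zero_le _

end Pool.Agent.J4H63.GZ
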