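import Pool.Agent.J4H63.GZ.WalkBd
import Pool.Agent.J4H63.GZ.Main

/-!
# Two involutions suffice
-/

namespace Pool.Agent.J4H63.GZ

/-- A `Δ₀` family of involutions: for every parameter vector `p` the function `τ p` is an
involution of `ℕ` which fixes all numbers `≥ p 0`, and the graph of `τ` is `Δ₀`. -/
structure InvFamily (K : ℕ) (τ : (Fin (K + 1) → ℕ) → ℕ → ℕ) : Prop where
  inv : ∀ p x, τ p (τ p x) = x
  fix : ∀ p x, p 0 ≤ x → τ p x = x
  graph : Delta0 (K + 3) (fun v => τ (fun i => v i.succ.succ) (v 0) = v 1)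

/-- the first two entries of the vector are linked by `τ p`, where `p` are the other entries -/
def LinkRel {K : ℕ} (τ : (Fin (K + 1) → ℕ) → ℕ → ℕ) (v : Fin (K + 3) → ℕ) : Prop :=
  Linked (τ (fun i => v i.succ.succ)) (v 0) (v 1)

theorem near_cast {m K K' : ℕ} (e : K = K') {Q : (Fin K → ℕ) → Prop} (h : NearDelta0 m K Q) :
    NearDelta0 m K' (fun u => Q (fun i => u (Fin.cast e i))) := by
  subst e
  exact h

theorem adv_link {m : ℕ} (hm : 1 ≤ m)
    (hnear : ∀ K τ, InvFamily K τ → NearDelta0 m (K + 3) (LinkRel τ)) {K : ℕ}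
    {τ : (Fin (K + 1) → ℕ) → ℕ → ℕ} (hτ : InvFamily K τ) : Adv (LinkRel τ) := by
  refine adv_of_near hm ?_
  set C := (K + 3) * (m - 1) + 1
  have hle : K + 1 ≤ K + C + 1 := by omega
  let τ' : (Fin (K + C + 1) → ℕ) → ℕ → ℕ := fun p => τ (fun i => p (Fin.castLE hle i))
  have hτ' : InvFamily (K + C) τ' := by
    refine ⟨fun p x => hτ.inv _ x, fun p x hx => hτ.fix _ x hx, ?_⟩
    rw [Bd.delta0_iff]
    have h3 : K + 3 ≤ K + C + 3 := by omega
    refine ((Bd.of_delta0 hτ.graph).subst
      (f := fun i (v : Fin (K + C + 3) → ℕ) => v (Fin.castLE h3 i)) fun i => PF.proj _).congr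
      fun v => ?_
    exact Iff.rfl
  have e : K + C + 3 = K + 3 + C := by omega
  have h := near_cast e (hnear _ _ hτ')
  have h0 : Fin.cast e (0 : Fin (K + C + 3)) = Fin.castAdd C (0 : Fin (K + 3)) := by
    ext
    simp
  have h1 : Fin.cast e (1 : Fin (K + C + 3)) = Fin.castAdd C (1 : Fin (K + 3)) := by
    ext
    simp
  have h2 : ∀ i : Fin (K + 1), Fin.cast e (Fin.castLE hle i).succ.succ =
      Fin.castAdd C i.succ.succ := by
    intro i
    ext
    simp
  convert h using 1
  funext u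
  simp only [LinkRel, τ', h0, h1, h2]

/-- vectors of polynomial functions -/
theorem PF.cons {κ : Type} {n : ℕ} {f : (κ → ℕ) → ℕ} {F : Fin n → (κ → ℕ) → ℕ} (hf : PF f)
    (hF : ∀ i, PF (F i)) : ∀ i, PF (fun v => (Matrix.vecCons (f v) (fun j => F j v) :
      Fin (n + 1) → ℕ) i) := by
  intro i
  refine Fin.cases hf (fun j => hF j) i

section

variable {n : ℕ} {g : (Fin n → ℕ) → ℕ} {h : (Fin (n + 2) → ℕ) → ℕ}

/-- one step of the recursion, cut off -/
def stepH (h : (Fin (n + 2) → ℕ) → ℕ) (p : Fin (n + 3) → ℕ) (t x : ℕ) : ℕ :=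
  min (h (fun i => Matrix.vecCons x (Matrix.vecCons t (fun i => p i.succ.succ.succ)) i)) (p 2)

theorem stepH_hd (hh : Nice h) : HD (stepH h) := by
  refine (hh.eq_min (ι := Option (Option (Option (Fin (n + 3))))) (y := fun u => u none)
    (a := fun i u => Matrix.vecCons (u (some none)) (Matrix.vecCons (u (some (some none)))
      (fun i => u (some (some (some i.succ.succ.succ))))) i)
    (b := fun u => u (some (some (some 2)))) ?_ (PF.proj _) (PF.proj _)).congr
    fun v => ⟨fun h => h.symm, fun h => h.symm⟩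
  exact PF.cons (PF.proj _) (PF.cons (PF.proj _) fun i => PF.proj _)

open Classical in
/-- the family of involutions for a recursion -/
noncomputable def fam (h : (Fin (n + 2) → ℕ) → ℕ) (p : Fin (n + 3) → ℕ) (x : ℕ) : ℕ :=
  if 4 * (p 1 * (p 2 + 1)) ≤ p 0 then tau (p 2) (p 1) (stepH h p) x else x

theorem fam_inv (hh : Nice h) : InvFamily (n + 2) (fam h) := by
  refine ⟨fun p x => ?_, fun p x hx => ?_, ?_⟩
  · unfold fam
    by_cases h0 : 4 * (p 1 * (p 2 + 1)) ≤ p 0
    · rw [if_pos h0, if_pos h0, tau_tau (H := stepH h p) fun t w => min_le_right _ _]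
    · rw [if_neg h0, if_neg h0]
  · unfold fam
    by_cases h0 : 4 * (p 1 * (p 2 + 1)) ≤ p 0
    · rw [if_pos h0, tau_fix (h0.trans hx)]
    · rw [if_neg h0]
  · rw [Bd.delta0_iff]
    have hb : Bd (fun v : Fin (n + 5) → ℕ => 4 * (v 3 * (v 4 + 1)) ≤ v 2) :=
      Bd.lef ((PF.const 4).mul ((PF.proj _).mul ((PF.proj _).add (PF.const 1)))) (PF.proj _)
    have ht : Bd (fun v : Fin (n + 5) → ℕ =>
        tau (v 4) (v 3) (stepH h (fun i => v i.succ.succ)) (v 0) = v 1) :=
      bd_tau (stepH_hd hh) (Z := fun p => p 2) (PF.proj 2) (fun p t x => min_le_right _ _)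
        (p := fun i v => v i.succ.succ) (fun i => PF.proj _) (PF.proj 3) (PF.proj 0) (PF.proj 1)
    refine (Bd.or (Bd.and hb ht) (Bd.and (Bd.not hb) (Bd.eqf (PF.proj 0) (PF.proj 1)))).congr
      fun v => ?_
    unfold fam
    by_cases h0 : 4 * (v 3 * (v 4 + 1)) ≤ v 2
    · rw [if_pos (by exact h0)]
      constructor
      · intro h
        exact Or.inl ⟨h0, h⟩
      · rintro (h | h)
        · exact h.2
        · exact absurd h0 h.1
    · rw [if_neg (by exact h0)]
      constructor
      · intro h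
        exact Or.inr ⟨h0, h⟩
      · rintro (h | h)
        · exact absurd h.1 h0
        · exact h.2

theorem fam_link {y z : ℕ} (hy : 0 < y) (v : Fin n → ℕ) {w' : ℕ} (hw' : w' ≤ z) :
    LinkRel (fam h) (Matrix.vecCons (cd z 0 (min (g v) z) 0 0) (Matrix.vecCons (cd z (y - 1) w' 0 0)
      (Matrix.vecCons (4 * (y * (z + 1))) (Matrix.vecCons y (Matrix.vecCons z v))))) ↔
    min (h (Matrix.vecCons w' (Matrix.vecCons (y - 1) v))) z = cut g h y z v := by
  have h1 := linked_iff (z := z) (y := y)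
    (H := fun t x => min (h (Matrix.vecCons x (Matrix.vecCons t v))) z)
    (fun t w => min_le_right _ _) hy (P := fun t => cut g h t z v) (cut_le g h 0 z v)
    (fun t => rfl) hw'
  rw [← h1]
  unfold LinkRel
  have h2 : fam h (fun i : Fin (n + 3) => (Matrix.vecCons (cd z 0 (min (g v) z) 0 0)
      (Matrix.vecCons (cd z (y - 1) w' 0 0) (Matrix.vecCons (4 * (y * (z + 1)))
        (Matrix.vecCons y (Matrix.vecCons z v)))) : Fin (n + 5) → ℕ) i.succ.succ) =
      tau z y (fun t x => min (h (Matrix.vecCons x (Matrix.vecCons t v))) z) := by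
    funext x
    unfold fam
    rw [if_pos (by exact le_rfl)]
    rfl
  rw [h2]
  exact Iff.rfl

theorem adv_cutRel (hg : Nice g) (hh : Nice h) (hadv : Adv (LinkRel (fam h))) :
    Adv (cutRel g h) := by
  obtain ⟨A, hA, Φ, c, hΦ, hadv⟩ := hadv
  refine ⟨A, hA, fun u =>
    (u (Sum.inr 1) = 0 ∧ u (Sum.inr 0) = min (g (fun i => u (Sum.inr i.succ.succ.succ)))
      (u (Sum.inr 2))) ∨
    ∃ t' ≤ u (Sum.inr 1), u (Sum.inr 1) = t' + 1 ∧ ∃ w' ≤ u (Sum.inr 2), ∃ g0 ≤ u (Sum.inr 2),
      g0 = min (g (fun i => u (Sum.inr i.succ.succ.succ))) (u (Sum.inr 2)) ∧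
      u (Sum.inr 0) = min (h (fun i => Matrix.vecCons w' (Matrix.vecCons t'
        (fun i => u (Sum.inr i.succ.succ.succ))) i)) (u (Sum.inr 2)) ∧
      Φ (Sum.elim (fun i => u (Sum.inl i)) (fun i => Matrix.vecCons (cd (u (Sum.inr 2)) 0 g0 0 0)
        (Matrix.vecCons (cd (u (Sum.inr 2)) t' w' 0 0) (Matrix.vecCons
          (4 * (u (Sum.inr 1) * (u (Sum.inr 2) + 1))) (Matrix.vecCons (u (Sum.inr 1))
            (Matrix.vecCons (u (Sum.inr 2)) (fun i => u (Sum.inr i.succ.succ.succ)))))) i)),
    5 * c, ?_, ?_⟩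
  · refine Bd.or (Bd.and (Bd.eqf (PF.proj _) (PF.const 0)) (hg.eq_min (fun i => PF.proj _)
      (PF.proj _) (PF.proj _))) (Bd.ex_le (PF.proj _) (Bd.and (Bd.eqf (PF.proj _)
        ((PF.proj none).add (PF.const 1))) (Bd.ex_le (PF.proj _) (Bd.ex_le (PF.proj _)
          (Bd.and ?_ (Bd.and ?_ ?_))))))
    · exact hg.eq_min (fun i => PF.proj _) (PF.proj _) (PF.proj _)
    · exact hh.eq_min (PF.cons (PF.proj _) (PF.cons (PF.proj _) fun i => PF.proj _))
        (PF.proj _) (PF.proj _)
    · have hz : PF (fun w : Option (Option (Option (A ⊕ Fin (n + 3)))) → ℕ =>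
        w (some (some (some (Sum.inr 2))))) := PF.proj _
      have hy : PF (fun w : Option (Option (Option (A ⊕ Fin (n + 3)))) → ℕ =>
        w (some (some (some (Sum.inr 1))))) := PF.proj _
      have c0 : PF (fun _ : Option (Option (Option (A ⊕ Fin (n + 3)))) → ℕ => 0) := PF.const 0
      have hvec := PF.cons (PF.cd hz c0 (PF.proj none) c0 c0) (PF.cons
        (PF.cd hz (PF.proj (some (some none))) (PF.proj (some none)) c0 c0) (PF.cons
          ((PF.const 4).mul (hy.mul (hz.add (PF.const 1)))) (PF.cons hy (PF.cons hz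
            fun i : Fin n => PF.proj (some (some (some (Sum.inr i.succ.succ.succ))))))))
      refine (hΦ.subst (f := fun s w => Sum.elim (fun i => w (some (some (some (Sum.inl i)))))
        (fun i => Matrix.vecCons (cd (w (some (some (some (Sum.inr 2))))) 0 (w none) 0 0)
        (Matrix.vecCons (cd (w (some (some (some (Sum.inr 2))))) (w (some (some none)))
          (w (some none)) 0 0) (Matrix.vecCons
          (4 * (w (some (some (some (Sum.inr 1)))) * (w (some (some (some (Sum.inr 2)))) + 1)))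
          (Matrix.vecCons (w (some (some (some (Sum.inr 1)))))
            (Matrix.vecCons (w (some (some (some (Sum.inr 2)))))
              (fun i => w (some (some (some (Sum.inr i.succ.succ.succ)))))))))
                i) s) ?_).congr fun w => Iff.rfl
      rintro (i | i)
      · exact PF.proj _
      · exact hvec i
  · intro m
    obtain ⟨α, hα1, hα2⟩ := hadv ((m + 2) ^ 4)
    refine ⟨α, fun i => (hα1 i).trans ?_, fun u hu => ?_⟩
    · rw [pow_mul]
      refine Nat.pow_le_pow_left ?_ c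
      have e1 : (m + 2) ^ 5 = (m + 2) ^ 4 * (m + 2) := by ring
      have e2 : 2 ^ 4 ≤ (m + 2) ^ 4 := Nat.pow_le_pow_left (by omega) 4
      have e3 : (m + 2) ^ 4 * 2 ≤ (m + 2) ^ 4 * (m + 2) := Nat.mul_le_mul_left _ (by omega)
      omega
    · set w := u 0 with hw
      set y := u 1 with hy
      set z := u 2 with hz
      set v : Fin n → ℕ := fun i => u i.succ.succ.succ with hv
      have hwm : w ≤ m := hu 0
      have hym : y ≤ m := hu 1
      have hzm : z ≤ m := hu 2
      have hvm : ∀ i, v i ≤ m := fun i => hu _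
      change cut g h y z v = w ↔ ((y = 0 ∧ w = min (g v) z) ∨ ∃ t' ≤ y, y = t' + 1 ∧ ∃ w' ≤ z,
        ∃ g0 ≤ z, g0 = min (g v) z ∧ w = min (h (Matrix.vecCons w' (Matrix.vecCons t' v))) z ∧
        Φ (Sum.elim α (Matrix.vecCons (cd z 0 g0 0 0) (Matrix.vecCons (cd z t' w' 0 0)
          (Matrix.vecCons (4 * (y * (z + 1))) (Matrix.vecCons y (Matrix.vecCons z v)))))))
      have hpow : m + 2 ≤ (m + 2) ^ 4 := by
        calc m + 2 = (m + 2) ^ 1 := (pow_one _).symm
          _ ≤ _ := Nat.pow_le_pow_right (by omega) (by omega)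
      have hbound : 4 * (y * (z + 1)) ≤ (m + 2) ^ 4 := by
        have h1 : y * (z + 1) ≤ (m + 2) * (m + 2) := Nat.mul_le_mul (by omega) (by omega)
        have h2 : 4 ≤ (m + 2) * (m + 2) := by nlinarith
        calc 4 * (y * (z + 1)) ≤ ((m + 2) * (m + 2)) * ((m + 2) * (m + 2)) :=
              Nat.mul_le_mul h2 h1
          _ = _ := by ring
      have key : ∀ t' w' g0, y = t' + 1 → w' ≤ z → g0 ≤ z → g0 = min (g v) z →
          (Φ (Sum.elim α (Matrix.vecCons (cd z 0 g0 0 0) (Matrix.vecCons (cd z t' w' 0 0)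
          (Matrix.vecCons (4 * (y * (z + 1))) (Matrix.vecCons y (Matrix.vecCons z v)))))) ↔
            min (h (Matrix.vecCons w' (Matrix.vecCons t' v))) z = cut g h y z v) := by
        intro t' w' g0 h1 h2 h3 h4
        rw [← hα2, h4]
        · have h5 := fam_link (g := g) (h := h) (y := y) (z := z) (by omega) v h2
          have h6 : y - 1 = t' := by omega
          rw [h6] at h5
          exact h5
        · have c1 := cd_lt (y := y) (z := z) (t := 0) (w := g0) (s := 0) (e := 0) (by omega) h3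
            (by omega) (by omega)
          have c2 := cd_lt (y := y) (z := z) (t := t') (w := w') (s := 0) (e := 0) (by omega) h2
            (by omega) (by omega)
          intro i
          refine Fin.cases ?_ (fun i => Fin.cases ?_ (fun i => Fin.cases ?_ (fun i =>
            Fin.cases ?_ (fun i => Fin.cases ?_ (fun i => ?_) i) i) i) i) i
          · exact c1.le.trans hbound
          · exact c2.le.trans hbound
          · exact hbound
          · exact (by omega : y ≤ (m + 2) ^ 4)
          · exact (by omega : z ≤ (m + 2) ^ 4)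
          · exact (hvm i).trans (by omega)
      constructor
      · intro hc
        rcases Nat.eq_zero_or_pos y with h0 | h0
        · left
          refine ⟨h0, ?_⟩
          rw [← hc, h0]
          rfl
        · right
          obtain ⟨t', ht'⟩ : ∃ t', y = t' + 1 := ⟨y - 1, by omega⟩
          have h1 : min (h (Matrix.vecCons (cut g h t' z v) (Matrix.vecCons t' v))) z =
              cut g h y z v := by
            rw [ht']
            rfl
          refine ⟨t', by omega, ht', cut g h t' z v, cut_le _ _ _ _ _, min (g v) z,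
            min_le_right _ _, rfl, ?_, ?_⟩
          · rw [h1]
            exact hc.symm
          · exact (key _ _ _ ht' (cut_le _ _ _ _ _) (min_le_right _ _) rfl).2 h1
      · rintro (⟨h0, h1⟩ | ⟨t', _, ht', w', hw', g0, hg0, hg0', h1, h2⟩)
        · rw [h1, h0]
          rfl
        · rw [h1]
          exact ((key _ _ _ ht' hw' hg0 hg0').1 h2).symm

end

theorem nice_of_link {m : ℕ} (hm : 1 ≤ m)
    (H : ∀ K τ, InvFamily K τ → NearDelta0 m (K + 3) (LinkRel τ)) {n : ℕ}
    {f : (Fin n → ℕ) → ℕ} (hf : E2 n f) : Nice f := by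
  induction hf with
  | zero => exact Nice.of_pf (PF.const 0)
  | succ => exact Nice.of_pf ((PF.proj 0).add (PF.const 1))
  | proj i => exact Nice.of_pf (PF.proj i)
  | mul => exact Nice.of_pf (((PF.proj 0).add (PF.const 1)).mul ((PF.proj 1).add (PF.const 1)))
  | comp _ _ ih1 ih2 => exact Nice.comp ih1 ih2
  | @lrec n g h b F hg hh hb hFb h0 h1 ihg ihh ihb =>
    exact nice_rec_of_adv (adv_cutRel ihg ihh (adv_link hm H (fam_inv ihh))) ihg ihh ihb hFb h0 h1

theorem delta0_of_link {m : ℕ} (hm : 1 ≤ m)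
    (H : ∀ K τ, InvFamily K τ → NearDelta0 m (K + 3) (LinkRel τ)) {k : ℕ}
    {R : (Fin k → ℕ) → Prop} (hR : E2star k R) : Delta0 k R := by
  obtain ⟨f, hf, hf'⟩ := hR
  have h := (nice_of_link hm H hf).graph (ι := Fin k) (a := fun i v => v i)
    (fun i => PF.proj i) (y := fun _ => 0) (PF.const 0)
  refine Bd.delta0_iff.2 (h.congr fun v => ⟨fun hR => (hf' v).1 hR, fun h0 => ?_⟩)
  by_contra hR
  have h1 := (hf' v).2 hR
  have h2 : f v = 0 := h0
  omega

end Pool.Agent.J4H63.GZ
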