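import Pool.Agent.J4H63.GZ.Lib
import Pool.Agent.J4H63.GZ.Adv

/-!
# Limited recursion
-/

namespace Pool.Agent.J4H63.GZ

open MvPolynomial

section

variable {n : ℕ} (g : (Fin n → ℕ) → ℕ) (h : (Fin (n + 2) → ℕ) → ℕ)

/-- the recursion, cut off at `z` -/
def cut (t z : ℕ) (v : Fin n → ℕ) : ℕ :=
  Nat.rec (min (g v) z) (fun t x => min (h (Matrix.vecCons x (Matrix.vecCons t v))) z) t

theorem cut_zero (z : ℕ) (v : Fin n → ℕ) : cut g h 0 z v = min (g v) z := rfl

theorem cut_succ (t z : ℕ) (v : Fin n → ℕ) : cut g h (t + 1) z v =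
    min (h (Matrix.vecCons (cut g h t z v) (Matrix.vecCons t v))) z := rfl

theorem cut_le (t z : ℕ) (v : Fin n → ℕ) : cut g h t z v ≤ z := by
  cases t with
  | zero => exact min_le_right _ _
  | succ t => exact min_le_right _ _

theorem cut_eq {F b : (Fin (n + 1) → ℕ) → ℕ} (h0 : ∀ v, F (Matrix.vecCons 0 v) = g v)
    (h1 : ∀ v y, F (Matrix.vecCons (y + 1) v) =
        h (Matrix.vecCons (F (Matrix.vecCons y v)) (Matrix.vecCons y v)))
    (hb : ∀ v, F v ≤ b v) (v : Fin n → ℕ) (z : ℕ) : ∀ y, (∀ t ≤ y, b (Matrix.vecCons t v) ≤ z) →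
      cut g h y z v = F (Matrix.vecCons y v) := by
  intro y
  induction y with
  | zero =>
    intro hz
    rw [cut_zero, h0, min_eq_left]
    rw [← h0]
    exact (hb _).trans (hz 0 le_rfl)
  | succ y ih =>
    intro hz
    rw [cut_succ, ih fun t ht => hz t (by omega), ← h1, min_eq_left]
    exact (hb _).trans (hz (y + 1) le_rfl)

/-- a relation which satisfies the recursion is the graph -/
theorem cut_unique (Φ : ℕ → ℕ → Prop) (z y : ℕ) (v : Fin n → ℕ)
    (h0 : ∀ w ≤ z, (Φ 0 w ↔ w = min (g v) z))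
    (h1 : ∀ t < y, ∀ w ≤ z, (Φ (t + 1) w ↔ ∃ x ≤ z, Φ t x ∧
      w = min (h (Matrix.vecCons x (Matrix.vecCons t v))) z)) :
    ∀ t ≤ y, ∀ w ≤ z, (Φ t w ↔ cut g h t z v = w) := by
  intro t
  induction t with
  | zero =>
    intro _ w hw
    rw [h0 w hw, cut_zero]
    exact eq_comm
  | succ t ih =>
    intro ht w hw
    rw [h1 t (by omega) w hw, cut_succ]
    constructor
    · rintro ⟨x, hx, hΦ, rfl⟩
      rw [(ih (by omega) x hx).1 hΦ]
    · intro he
      exact ⟨cut g h t z v, cut_le g h t z v, (ih (by omega) _ (cut_le g h t z v)).2 rfl, he.symm⟩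

/-- `min (f a) b` for nice `f` -/
theorem Nice.eq_min {k : ℕ} {f : (Fin k → ℕ) → ℕ} (hf : Nice f) {ι : Type}
    {a : Fin k → (ι → ℕ) → ℕ} (ha : ∀ i, PF (a i)) {y b : (ι → ℕ) → ℕ} (hy : PF y) (hb : PF b) :
    Bd (fun v : ι → ℕ => y v = Min.min (f (fun i => a i v)) (b v)) := by
  obtain ⟨B, hB, hB'⟩ := hf.2
  refine (Bd.ex_le (b := fun v => B (fun i => a i v))
    (P := fun v x => f (fun i => a i v) = x ∧ y v = Min.min x (b v)) (hB.comp ha) ?_).congr
    fun v => ?_
  · exact Bd.and (hf.graph (fun i => (ha i).comp fun j => PF.proj (some j)) (PF.proj none))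
      (Bd.eq_min (hy.comp fun j => PF.proj (some j)) (PF.proj none)
        (hb.comp fun j => PF.proj (some j)))
  · constructor
    · intro he
      exact ⟨f (fun i => a i v), hB' _, rfl, he⟩
    · rintro ⟨x, _, rfl, he⟩
      exact he

variable {g h}

/-- If the cut off recursion is decided by a bounded formula with advice, then the function defined
by limited recursion is nice. -/
theorem nice_rec {A : Type} [Finite A] {Φ : (A ⊕ (Fin 3 ⊕ Fin n) → ℕ) → Prop} (hΦ : Bd Φ)
    (hg : Nice g) (hh : Nice h) {F b : (Fin (n + 1) → ℕ) → ℕ} (hb : Nice b) (hFb : ∀ v, F v ≤ b v)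
    (h0 : ∀ v, F (Matrix.vecCons 0 v) = g v)
    (h1 : ∀ v y, F (Matrix.vecCons (y + 1) v) =
        h (Matrix.vecCons (F (Matrix.vecCons y v)) (Matrix.vecCons y v)))
    {c : ℕ} (hadv : ∀ m : ℕ, ∃ α : A → ℕ, (∀ i, α i ≤ (m + 2) ^ c) ∧
      ∀ (w t z : ℕ) (v : Fin n → ℕ), w ≤ m → t ≤ m → z ≤ m → (∀ i, v i ≤ m) →
        (cut g h t z v = w ↔ Φ (Sum.elim α (Sum.elim ![w, t, z] v)))) : Nice F := by
  classical
  obtain ⟨bb, hbb, hbb'⟩ := hb.2
  refine ⟨?_, bb, hbb, fun v => (hFb v).trans (hbb' v)⟩
  -- the bound for the values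
  set Z : (Option (Fin (n + 1)) → ℕ) → ℕ := fun u => bb (fun i => u (some i)) with hZ
  have hZp : PF Z := hbb.comp fun i => PF.proj (some i)
  set m : (Option (Fin (n + 1)) → ℕ) → ℕ := fun u => Z u + ∑ i : Fin (n + 1), u (some i) with hm
  have hmp : PF m := hZp.add (PF.sum Finset.univ fun i => PF.proj (some i))
  -- the check
  let good : (Option (Fin (n + 1)) → ℕ) → (A → ℕ) → Prop := fun u α =>
    (∀ w ≤ Z u, (Φ (Sum.elim α (Sum.elim ![w, 0, Z u] (fun i => u (some i.succ)))) ↔
      w = min (g (fun i => u (some i.succ))) (Z u))) ∧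
    ∀ t < u (some 0), ∀ w ≤ Z u,
      (Φ (Sum.elim α (Sum.elim ![w, t + 1, Z u] (fun i => u (some i.succ)))) ↔
        ∃ x ≤ Z u, Φ (Sum.elim α (Sum.elim ![x, t, Z u] (fun i => u (some i.succ)))) ∧
          w = min (h (fun i => Matrix.vecCons x (Matrix.vecCons t
            (fun i => u (some i.succ))) i)) (Z u))
  refine (Bd.exVec A (ι := Option (Fin (n + 1))) (b := fun u => (m u + 2) ^ c)
    (P := fun u α => good u α ∧ u none ≤ Z u ∧
      Φ (Sum.elim α (Sum.elim ![u none, u (some 0), Z u] (fun i => u (some i.succ)))))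
    ((hmp.add (PF.const 2)).pow c) ?_).congr fun u => ?_
  · -- definability
    have hZ1 : PF (fun u : Option (Fin (n + 1)) ⊕ A → ℕ => Z (fun i => u (Sum.inl i))) :=
      hZp.comp fun i => PF.proj (Sum.inl i)
    have hsub : ∀ {ι : Type} {a : A → (ι → ℕ) → ℕ} {x y z : (ι → ℕ) → ℕ}
        {r : Fin n → (ι → ℕ) → ℕ}, (∀ i, PF (a i)) → PF x → PF y → PF z → (∀ i, PF (r i)) →
        Bd (fun v : ι → ℕ => Φ (Sum.elim (fun i => a i v) (Sum.elim ![x v, y v, z v]
          (fun i => r i v)))) := by
      intro ι a x y z r ha hx hy hz hr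
      refine (hΦ.subst (f := fun s v => Sum.elim (fun i => a i v)
        (Sum.elim ![x v, y v, z v] (fun i => r i v)) s) ?_).congr fun v => Iff.rfl
      rintro (i | i | i)
      · exact ha i
      · fin_cases i
        · exact hx
        · exact hy
        · exact hz
      · exact hr i
    refine Bd.and (Bd.and ?_ ?_) (Bd.and ?_ ?_)
    · refine Bd.all_le hZ1 (Bd.iff ?_ ?_)
      · exact hsub (fun i => PF.proj (some (Sum.inr i))) (PF.proj none) (PF.const 0)
          (hZ1.comp fun j => PF.proj (some j)) (fun i => PF.proj (some (Sum.inl (some i.succ))))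
      · exact hg.eq_min (fun i => PF.proj (some (Sum.inl (some i.succ)))) (PF.proj none)
          (hZ1.comp fun j => PF.proj (some j))
    · refine Bd.all_lt (PF.proj (Sum.inl (some 0))) (Bd.all_le
        (hZ1.comp fun j => PF.proj (some j)) (Bd.iff ?_ (Bd.ex_le
          (hZ1.comp fun j => PF.proj (some (some j))) (Bd.and ?_ ?_))))
      · exact hsub (fun i => PF.proj (some (some (Sum.inr i)))) (PF.proj none)
          ((PF.proj (some none)).add (PF.const 1)) (hZ1.comp fun j => PF.proj (some (some j)))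
          (fun i => PF.proj (some (some (Sum.inl (some i.succ)))))
      · exact hsub (fun i => PF.proj (some (some (some (Sum.inr i))))) (PF.proj none)
          (PF.proj (some (some none))) (hZ1.comp fun j => PF.proj (some (some (some j))))
          (fun i => PF.proj (some (some (some (Sum.inl (some i.succ))))))
      · refine hh.eq_min (fun i => ?_) (PF.proj (some none))
          (hZ1.comp fun j => PF.proj (some (some (some j))))
        refine Fin.cases ?_ (fun i => Fin.cases ?_ (fun i => ?_) i) i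
        · exact PF.proj none
        · exact PF.proj (some (some none))
        · exact PF.proj (some (some (some (Sum.inl (some i.succ)))))
    · exact Bd.lef (PF.proj (Sum.inl none)) hZ1
    · exact hsub (fun i => PF.proj (Sum.inr i)) (PF.proj (Sum.inl none))
        (PF.proj (Sum.inl (some 0))) hZ1 (fun i => PF.proj (Sum.inl (some i.succ)))
  · -- correctness
    set v : Fin n → ℕ := fun i => u (some i.succ) with hv
    set y := u (some 0) with hy
    have hvc : (fun i => u (some i)) = (Matrix.vecCons y v : Fin (n + 1) → ℕ) := by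
      funext i
      refine Fin.cases rfl (fun j => rfl) i
    have hbz : ∀ t ≤ y, bb (Matrix.vecCons t v) ≤ Z u := by
      intro t ht
      rw [hZ]
      simp only [hvc]
      refine hbb.mono fun i => ?_
      refine Fin.cases ht (fun j => le_rfl) i
    have hcut : ∀ t ≤ y, cut g h t (Z u) v = F (Matrix.vecCons t v) := fun t ht =>
      cut_eq g h h0 h1 (fun v => (hFb v).trans (hbb' v)) v (Z u) t fun s hs => hbz s (by omega)
    have huniq : ∀ α, good u α → ∀ t ≤ y, ∀ w ≤ Z u,
        (Φ (Sum.elim α (Sum.elim ![w, t, Z u] v)) ↔ cut g h t (Z u) v = w) := by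
      intro α hα
      exact cut_unique g h (fun t w => Φ (Sum.elim α (Sum.elim ![w, t, Z u] v))) (Z u) y v
        hα.1 hα.2
    rw [hvc]
    constructor
    · intro hF
      obtain ⟨α, hα1, hα2⟩ := hadv (m u)
      have hyle : y ≤ m u := by
        have : u (some 0) ≤ ∑ i : Fin (n + 1), u (some i) :=
          Finset.single_le_sum (f := fun i : Fin (n + 1) => u (some i))
            (fun _ _ => Nat.zero_le _) (Finset.mem_univ 0)
        simp only [hm, hy]
        omega
      have hvle : ∀ i, v i ≤ m u := by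
        intro i
        have : u (some i.succ) ≤ ∑ i : Fin (n + 1), u (some i) :=
          Finset.single_le_sum (f := fun i : Fin (n + 1) => u (some i))
            (fun _ _ => Nat.zero_le _) (Finset.mem_univ i.succ)
        simp only [hm, hv]
        omega
      have hzle : Z u ≤ m u := by simp only [hm]; omega
      have hval : ∀ t ≤ y, ∀ w ≤ Z u,
          (cut g h t (Z u) v = w ↔ Φ (Sum.elim α (Sum.elim ![w, t, Z u] v))) := by
        intro t ht w hw
        exact hα2 w t (Z u) v (hw.trans hzle) (ht.trans hyle) hzle hvle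
      have hule : u none ≤ Z u := by
        rw [← hF, ← hcut y le_rfl]
        exact cut_le _ _ _ _ _
      refine ⟨α, hα1, ⟨?_, ?_⟩, hule, ?_⟩
      · intro w hw
        rw [← hval 0 (Nat.zero_le _) w hw, cut_zero]
        exact eq_comm
      · intro t ht w hw
        rw [← hval (t + 1) ht w hw, cut_succ]
        constructor
        · intro he
          exact ⟨cut g h t (Z u) v, cut_le _ _ _ _ _,
            (hval t (le_of_lt ht) _ (cut_le _ _ _ _ _)).1 rfl, he.symm⟩
        · rintro ⟨x, hx, hx1, hx2⟩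
          rw [(hval t (le_of_lt ht) x hx).2 hx1]
          exact hx2.symm
      · rw [← hval y le_rfl _ hule, hcut y le_rfl]
        exact hF
    · rintro ⟨α, _, hα, hule, hΦu⟩
      have := (huniq α hα y le_rfl _ hule).1 hΦu
      rw [hcut y le_rfl] at this
      exact this

end

end Pool.Agent.J4H63.GZ
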