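import Mathlib

/-!
# Walking around a forest: two involutions

A function `H` from level `t` to level `t + 1` of a table with the columns `0, …, z` makes a forest
with the roots at level `y`.  The boundary walk around the trees alternates between two involutions
on the flags `(t, w, s, e)`: an edge from the node `(t, w)` to its parent `(t + 1, H t w)`, a side
`s` (`0` left, `1` right) and an end `e` (`0` the end at `(t, w)`, `1` the end at the parent).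
-/

namespace Pool.Agent.J4H63.GZ

section

variable (z y : ℕ) (H : ℕ → ℕ → ℕ)

/-- `x` is the first child of `(t + 1, w)` -/
def First (t x w : ℕ) : Prop := x ≤ z ∧ H t x = w ∧ ∀ x' < x, H t x' ≠ w

/-- `x` is the last child of `(t + 1, w)` -/
def Last (t x w : ℕ) : Prop := x ≤ z ∧ H t x = w ∧ ∀ x' ≤ z, x < x' → H t x' ≠ w

/-- `x'` is the next sibling of `x` at level `t` -/
def Nxt (t x x' : ℕ) : Prop := x < x' ∧ x' ≤ z ∧ H t x' = H t x ∧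
  ∀ x'' < x', x < x'' → H t x'' ≠ H t x

/-- the node has no children -/
def Leaf (t w : ℕ) : Prop := t = 0 ∨ ∀ x ≤ z, H (t - 1) x ≠ w

/-- the involution, as a relation between flags -/
def TT (t w s e t' w' s' e' : ℕ) : Prop :=
  (e = 0 ∧ s = 0 ∧ ((Leaf z H t w ∧ t' = t ∧ w' = w ∧ s' = 1 ∧ e' = 0) ∨
    (t = t' + 1 ∧ First z H t' w' w ∧ s' = 0 ∧ e' = 1))) ∨
  (e = 0 ∧ s = 1 ∧ ((Leaf z H t w ∧ t' = t ∧ w' = w ∧ s' = 0 ∧ e' = 0) ∨
    (t = t' + 1 ∧ Last z H t' w' w ∧ s' = 1 ∧ e' = 1))) ∨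
  (e = 1 ∧ s = 0 ∧ ((Nxt z H t w' w ∧ t' = t ∧ s' = 1 ∧ e' = 1) ∨
    (First z H t w (H t w) ∧ t + 1 < y ∧ t' = t + 1 ∧ w' = H t w ∧ s' = 0 ∧ e' = 0) ∨
    (First z H t w (H t w) ∧ y ≤ t + 1 ∧ t' = t ∧ w' = w ∧ s' = 0 ∧ e' = 1))) ∨
  (e = 1 ∧ s = 1 ∧ ((Nxt z H t w w' ∧ t' = t ∧ s' = 0 ∧ e' = 1) ∨
    (Last z H t w (H t w) ∧ t + 1 < y ∧ t' = t + 1 ∧ w' = H t w ∧ s' = 1 ∧ e' = 0) ∨
    (Last z H t w (H t w) ∧ y ≤ t + 1 ∧ t' = t ∧ w' = w ∧ s' = 1 ∧ e' = 1)))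

variable {z y H}

theorem TT.symm {t w s e t' w' s' e' : ℕ} (ht : t < y) (h : TT z y H t w s e t' w' s' e') :
    TT z y H t' w' s' e' t w s e := by
  rcases h with ⟨rfl, rfl, h⟩ | ⟨rfl, rfl, h⟩ | ⟨rfl, rfl, h⟩ | ⟨rfl, rfl, h⟩
  · rcases h with ⟨h1, rfl, rfl, rfl, rfl⟩ | ⟨rfl, h1, rfl, rfl⟩
    · exact Or.inr (Or.inl ⟨rfl, rfl, Or.inl ⟨h1, rfl, rfl, rfl, rfl⟩⟩)
    · obtain ⟨_, h3, _⟩ := id h1
      subst h3
      exact Or.inr (Or.inr (Or.inl ⟨rfl, rfl, Or.inr (Or.inl ⟨h1, ht, rfl, rfl, rfl, rfl⟩)⟩))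
  · rcases h with ⟨h1, rfl, rfl, rfl, rfl⟩ | ⟨rfl, h1, rfl, rfl⟩
    · exact Or.inl ⟨rfl, rfl, Or.inl ⟨h1, rfl, rfl, rfl, rfl⟩⟩
    · obtain ⟨_, h3, _⟩ := id h1
      subst h3
      exact Or.inr (Or.inr (Or.inr ⟨rfl, rfl, Or.inr (Or.inl ⟨h1, ht, rfl, rfl, rfl, rfl⟩)⟩))
  · rcases h with ⟨h1, rfl, rfl, rfl⟩ | ⟨h1, h2, rfl, rfl, rfl, rfl⟩ | ⟨h1, h2, rfl, rfl, rfl, rfl⟩
    · exact Or.inr (Or.inr (Or.inr ⟨rfl, rfl, Or.inl ⟨h1, rfl, rfl, rfl⟩⟩))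
    · exact Or.inl ⟨rfl, rfl, Or.inr ⟨rfl, h1, rfl, rfl⟩⟩
    · exact Or.inr (Or.inr (Or.inl ⟨rfl, rfl, Or.inr (Or.inr ⟨h1, h2, rfl, rfl, rfl, rfl⟩)⟩))
  · rcases h with ⟨h1, rfl, rfl, rfl⟩ | ⟨h1, h2, rfl, rfl, rfl, rfl⟩ | ⟨h1, h2, rfl, rfl, rfl, rfl⟩
    · exact Or.inr (Or.inr (Or.inl ⟨rfl, rfl, Or.inl ⟨h1, rfl, rfl, rfl⟩⟩))
    · exact Or.inr (Or.inl ⟨rfl, rfl, Or.inr ⟨rfl, h1, rfl, rfl⟩⟩)
    · exact Or.inr (Or.inr (Or.inr ⟨rfl, rfl, Or.inr (Or.inr ⟨h1, h2, rfl, rfl, rfl, rfl⟩)⟩))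

theorem First.unique {t x x' w : ℕ} (h : First z H t x w) (h' : First z H t x' w) : x = x' := by
  rcases Nat.lt_trichotomy x x' with h1 | h1 | h1
  · exact absurd h.2.1 (h'.2.2 x h1)
  · exact h1
  · exact absurd h'.2.1 (h.2.2 x' h1)

theorem Last.unique {t x x' w : ℕ} (h : Last z H t x w) (h' : Last z H t x' w) : x = x' := by
  rcases Nat.lt_trichotomy x x' with h1 | h1 | h1
  · exact absurd h'.2.1 (h.2.2 x' h'.1 h1)
  · exact h1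
  · exact absurd h.2.1 (h'.2.2 x h.1 h1)

theorem Nxt.unique {t x x' x'' : ℕ} (h : Nxt z H t x x') (h' : Nxt z H t x x'') : x' = x'' := by
  rcases Nat.lt_trichotomy x' x'' with h1 | h1 | h1
  · exact absurd h.2.2.1 (h'.2.2.2 x' h1 h.1)
  · exact h1
  · exact absurd h'.2.2.1 (h.2.2.2 x'' h1 h'.1)

theorem Nxt.unique' {t x x' x'' : ℕ} (h : Nxt z H t x' x) (h' : Nxt z H t x'' x) : x' = x'' := by
  rcases Nat.lt_trichotomy x' x'' with h1 | h1 | h1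
  · exact absurd (h'.2.2.1.symm.trans h.2.2.1) (h.2.2.2 x'' h'.1 h1)
  · exact h1
  · exact absurd (h.2.2.1.symm.trans h'.2.2.1) (h'.2.2.2 x' h.1 h1)

theorem Leaf.not_first {t x w : ℕ} (h : Leaf z H (t + 1) w) (h' : First z H t x w) : False := by
  rcases h with h | h
  · omega
  · exact h x h'.1 h'.2.1

theorem Leaf.not_last {t x w : ℕ} (h : Leaf z H (t + 1) w) (h' : Last z H t x w) : False := by
  rcases h with h | h
  · omega
  · exact h x h'.1 h'.2.1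

theorem First.not_nxt {t x w : ℕ} (h : First z H t w (H t w)) (h' : Nxt z H t x w) : False :=
  h.2.2 x h'.1 h'.2.2.1.symm

theorem Last.not_nxt {t x w : ℕ} (h : Last z H t w (H t w)) (h' : Nxt z H t w x) : False :=
  h.2.2 x h'.2.1 h'.1 h'.2.2.1

theorem TT.unique {t w s e t' w' s' e' t'' w'' s'' e'' : ℕ}
    (h : TT z y H t w s e t' w' s' e') (h' : TT z y H t w s e t'' w'' s'' e'') :
    t' = t'' ∧ w' = w'' ∧ s' = s'' ∧ e' = e'' := by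
  rcases h with ⟨rfl, rfl, h⟩ | ⟨rfl, rfl, h⟩ | ⟨rfl, rfl, h⟩ | ⟨rfl, rfl, h⟩
  · rcases h' with ⟨_, _, h'⟩ | ⟨_, h2, _⟩ | ⟨h2, _⟩ | ⟨h2, _⟩
    · rcases h with ⟨h1, rfl, rfl, rfl, rfl⟩ | ⟨rfl, h1, rfl, rfl⟩
      · rcases h' with ⟨h3, rfl, rfl, rfl, rfl⟩ | ⟨rfl, h3, rfl, rfl⟩
        · exact ⟨rfl, rfl, rfl, rfl⟩
        · exact (h1.not_first h3).elim
      · rcases h' with ⟨h3, rfl, rfl, rfl, rfl⟩ | ⟨h4, h3, rfl, rfl⟩
        · exact (h3.not_first h1).elim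
        · obtain rfl : t' = t'' := by omega
          exact ⟨rfl, h1.unique h3, rfl, rfl⟩
    · omega
    · omega
    · omega
  · rcases h' with ⟨_, h2, _⟩ | ⟨_, _, h'⟩ | ⟨h2, _⟩ | ⟨h2, _⟩
    · omega
    · rcases h with ⟨h1, rfl, rfl, rfl, rfl⟩ | ⟨rfl, h1, rfl, rfl⟩
      · rcases h' with ⟨h3, rfl, rfl, rfl, rfl⟩ | ⟨rfl, h3, rfl, rfl⟩
        · exact ⟨rfl, rfl, rfl, rfl⟩
        · exact (h1.not_last h3).elim
      · rcases h' with ⟨h3, rfl, rfl, rfl, rfl⟩ | ⟨h4, h3, rfl, rfl⟩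
        · exact (h3.not_last h1).elim
        · obtain rfl : t' = t'' := by omega
          exact ⟨rfl, h1.unique h3, rfl, rfl⟩
    · omega
    · omega
  · rcases h' with ⟨h2, _⟩ | ⟨h2, _⟩ | ⟨_, _, h'⟩ | ⟨_, h2, _⟩
    · omega
    · omega
    · rcases h with ⟨h1, rfl, rfl, rfl⟩ | ⟨h1, h5, rfl, rfl, rfl, rfl⟩ |
        ⟨h1, h5, rfl, rfl, rfl, rfl⟩
      · rcases h' with ⟨h3, rfl, rfl, rfl⟩ | ⟨h3, h6, rfl, rfl, rfl, rfl⟩ |
          ⟨h3, h6, rfl, rfl, rfl, rfl⟩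
        · exact ⟨rfl, h1.unique' h3, rfl, rfl⟩
        · exact (h3.not_nxt h1).elim
        · exact (h3.not_nxt h1).elim
      · rcases h' with ⟨h3, rfl, rfl, rfl⟩ | ⟨h3, h6, rfl, rfl, rfl, rfl⟩ |
          ⟨h3, h6, rfl, rfl, rfl, rfl⟩
        · exact (h1.not_nxt h3).elim
        · exact ⟨rfl, rfl, rfl, rfl⟩
        · omega
      · rcases h' with ⟨h3, rfl, rfl, rfl⟩ | ⟨h3, h6, rfl, rfl, rfl, rfl⟩ |
          ⟨h3, h6, rfl, rfl, rfl, rfl⟩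
        · exact (h1.not_nxt h3).elim
        · omega
        · exact ⟨rfl, rfl, rfl, rfl⟩
    · omega
  · rcases h' with ⟨h2, _⟩ | ⟨h2, _⟩ | ⟨_, h2, _⟩ | ⟨_, _, h'⟩
    · omega
    · omega
    · omega
    · rcases h with ⟨h1, rfl, rfl, rfl⟩ | ⟨h1, h5, rfl, rfl, rfl, rfl⟩ |
        ⟨h1, h5, rfl, rfl, rfl, rfl⟩
      · rcases h' with ⟨h3, rfl, rfl, rfl⟩ | ⟨h3, h6, rfl, rfl, rfl, rfl⟩ |
          ⟨h3, h6, rfl, rfl, rfl, rfl⟩
        · exact ⟨rfl, h1.unique h3, rfl, rfl⟩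
        · exact (h3.not_nxt h1).elim
        · exact (h3.not_nxt h1).elim
      · rcases h' with ⟨h3, rfl, rfl, rfl⟩ | ⟨h3, h6, rfl, rfl, rfl, rfl⟩ |
          ⟨h3, h6, rfl, rfl, rfl, rfl⟩
        · exact (h1.not_nxt h3).elim
        · exact ⟨rfl, rfl, rfl, rfl⟩
        · omega
      · rcases h' with ⟨h3, rfl, rfl, rfl⟩ | ⟨h3, h6, rfl, rfl, rfl, rfl⟩ |
          ⟨h3, h6, rfl, rfl, rfl, rfl⟩
        · exact (h1.not_nxt h3).elim
        · omega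
        · exact ⟨rfl, rfl, rfl, rfl⟩

theorem exists_first {t x w : ℕ} (hx : x ≤ z) (h : H t x = w) : ∃ x', First z H t x' w := by
  classical
  have hex : ∃ x, H t x = w := ⟨x, h⟩
  refine ⟨Nat.find hex, (Nat.find_min' hex h).trans hx, Nat.find_spec hex, fun x' hx' => ?_⟩
  exact Nat.find_min hex hx'

theorem exists_last {t x w : ℕ} (hx : x ≤ z) (h : H t x = w) : ∃ x', Last z H t x' w := by
  classical
  have hex : ∃ x ≤ z, H t x = w := ⟨x, hx, h⟩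
  have h2 := Nat.findGreatest_spec (P := fun x => H t x = w) hx h
  refine ⟨Nat.findGreatest (fun x => H t x = w) z, Nat.findGreatest_le _, h2, ?_⟩
  intro x' hx' hlt he
  have := Nat.le_findGreatest (P := fun x => H t x = w) hx' he
  omega

theorem exists_prev {t w : ℕ} (hw : w ≤ z) : (∃ x, Nxt z H t x w) ∨ First z H t w (H t w) := by
  classical
  by_cases hex : ∃ x < w, H t x = H t w
  · left
    obtain ⟨x, hx, hx'⟩ := hex
    have h2 := Nat.findGreatest_spec (P := fun x => H t x = H t w) (n := w - 1) (by omega) hx'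
    have h3 := Nat.findGreatest_le (P := fun x => H t x = H t w) (w - 1)
    refine ⟨Nat.findGreatest (fun x => H t x = H t w) (w - 1), by omega, hw, h2.symm, ?_⟩
    intro x'' hx'' hlt he
    have := Nat.le_findGreatest (P := fun x => H t x = H t w) (n := w - 1) (m := x'') (by omega)
      (he.trans h2)
    omega
  · right
    push Not at hex
    exact ⟨hw, rfl, hex⟩

theorem exists_next {t w : ℕ} (hw : w ≤ z) : (∃ x, Nxt z H t w x) ∨ Last z H t w (H t w) := by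
  classical
  by_cases hex : ∃ x, w < x ∧ x ≤ z ∧ H t x = H t w
  · left
    obtain ⟨h1, h2, h3⟩ := Nat.find_spec hex
    refine ⟨Nat.find hex, h1, h2, h3, fun x'' hx'' hlt he => ?_⟩
    exact Nat.find_min hex hx'' ⟨hlt, by omega, he⟩
  · right
    push Not at hex
    exact ⟨hw, rfl, fun x' hx' hlt => hex x' hlt hx'⟩

theorem TT.total (hH : ∀ t w, H t w ≤ z) {t w s e : ℕ} (ht : t < y) (hw : w ≤ z) (hs : s < 2)
    (he : e < 2) : ∃ t' w' s' e', t' < y ∧ w' ≤ z ∧ s' < 2 ∧ e' < 2 ∧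
      TT z y H t w s e t' w' s' e' := by
  classical
  obtain rfl | rfl : e = 0 ∨ e = 1 := by omega
  · by_cases hl : Leaf z H t w
    · obtain rfl | rfl : s = 0 ∨ s = 1 := by omega
      · exact ⟨t, w, 1, 0, ht, hw, by omega, by omega,
          Or.inl ⟨rfl, rfl, Or.inl ⟨hl, rfl, rfl, rfl, rfl⟩⟩⟩
      · exact ⟨t, w, 0, 0, ht, hw, by omega, by omega,
          Or.inr (Or.inl ⟨rfl, rfl, Or.inl ⟨hl, rfl, rfl, rfl, rfl⟩⟩)⟩
    · unfold Leaf at hl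
      push Not at hl
      obtain ⟨h0, x, hx, hx'⟩ := hl
      obtain ⟨t, rfl⟩ : ∃ t', t = t' + 1 := ⟨t - 1, by omega⟩
      rw [Nat.add_sub_cancel] at hx'
      obtain rfl | rfl : s = 0 ∨ s = 1 := by omega
      · obtain ⟨x', hf⟩ := exists_first hx hx'
        exact ⟨t, x', 0, 1, by omega, hf.1, by omega, by omega,
          Or.inl ⟨rfl, rfl, Or.inr ⟨rfl, hf, rfl, rfl⟩⟩⟩
      · obtain ⟨x', hf⟩ := exists_last hx hx'
        exact ⟨t, x', 1, 1, by omega, hf.1, by omega, by omega,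
          Or.inr (Or.inl ⟨rfl, rfl, Or.inr ⟨rfl, hf, rfl, rfl⟩⟩)⟩
  · obtain rfl | rfl : s = 0 ∨ s = 1 := by omega
    · rcases exists_prev (H := H) (t := t) hw with ⟨x, hx⟩ | hf
      · exact ⟨t, x, 1, 1, ht, hx.1.le.trans hw, by omega, by omega,
          Or.inr (Or.inr (Or.inl ⟨rfl, rfl, Or.inl ⟨hx, rfl, rfl, rfl⟩⟩))⟩
      · by_cases hy : t + 1 < y
        · exact ⟨t + 1, H t w, 0, 0, hy, hH _ _, by omega, by omega,
            Or.inr (Or.inr (Or.inl ⟨rfl, rfl, Or.inr (Or.inl ⟨hf, hy, rfl, rfl, rfl, rfl⟩)⟩))⟩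
        · exact ⟨t, w, 0, 1, ht, hw, by omega, by omega,
            Or.inr (Or.inr (Or.inl ⟨rfl, rfl, Or.inr (Or.inr ⟨hf, by omega, rfl, rfl, rfl,
              rfl⟩)⟩))⟩
    · rcases exists_next (H := H) (t := t) hw with ⟨x, hx⟩ | hf
      · exact ⟨t, x, 0, 1, ht, hx.2.1, by omega, by omega,
          Or.inr (Or.inr (Or.inr ⟨rfl, rfl, Or.inl ⟨hx, rfl, rfl, rfl⟩⟩))⟩
      · by_cases hy : t + 1 < y
        · exact ⟨t + 1, H t w, 1, 0, hy, hH _ _, by omega, by omega,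
            Or.inr (Or.inr (Or.inr ⟨rfl, rfl, Or.inr (Or.inl ⟨hf, hy, rfl, rfl, rfl, rfl⟩)⟩))⟩
        · exact ⟨t, w, 1, 1, ht, hw, by omega, by omega,
            Or.inr (Or.inr (Or.inr ⟨rfl, rfl, Or.inr (Or.inr ⟨hf, by omega, rfl, rfl, rfl,
              rfl⟩)⟩))⟩

end

end Pool.Agent.J4H63.GZ
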