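import Pool.Agent.J4H63.GZ.Tour

/-!
# The walk around the forest decides the roots
-/

namespace Pool.Agent.J4H63.GZ

/-- `x` and `y` are connected by steps `a ↦ τ a` and by steps inside a pair `{2 j, 2 j + 1}` -/
def Linked (τ : ℕ → ℕ) : ℕ → ℕ → Prop :=
  Relation.ReflTransGen (fun a b => b = τ a ∨ b / 2 = a / 2)

theorem Linked.symm {τ : ℕ → ℕ} (hτ : ∀ x, τ (τ x) = x) {x x' : ℕ} (h : Linked τ x x') :
    Linked τ x' x := by
  induction h with
  | refl => exact Relation.ReflTransGen.refl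
  | tail _ hbc ih =>
    refine Relation.ReflTransGen.trans (Relation.ReflTransGen.single ?_) ih
    rcases hbc with rfl | h
    · exact Or.inl (hτ _).symm
    · exact Or.inr h.symm

/-- the code of a flag -/
def cd (z t w s e : ℕ) : ℕ := 4 * (t * (z + 1) + w) + 2 * s + e

theorem cd_inj {z t w s e t' w' s' e' : ℕ} (hw : w ≤ z) (hs : s < 2) (he : e < 2) (hw' : w' ≤ z)
    (hs' : s' < 2) (he' : e' < 2) (h : cd z t w s e = cd z t' w' s' e') :
    t = t' ∧ w = w' ∧ s = s' ∧ e = e' := by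
  unfold cd at h
  have h1 : t * (z + 1) + w = t' * (z + 1) + w' := by omega
  have h2 : s = s' ∧ e = e' := by omega
  have h3 : t = t' := by
    have e1 : (t * (z + 1) + w) / (z + 1) = t := by
      rw [Nat.add_comm, Nat.add_mul_div_right _ _ (by omega), Nat.div_eq_of_lt (by omega)]
      omega
    have e2 : (t' * (z + 1) + w') / (z + 1) = t' := by
      rw [Nat.add_comm, Nat.add_mul_div_right _ _ (by omega), Nat.div_eq_of_lt (by omega)]
      omega
    rw [← e1, ← e2, h1]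
  subst h3
  exact ⟨rfl, by omega, h2.1, h2.2⟩

theorem cd_lt {z y t w s e : ℕ} (ht : t < y) (hw : w ≤ z) (hs : s < 2) (he : e < 2) :
    cd z t w s e < 4 * (y * (z + 1)) := by
  unfold cd
  have h1 : (t + 1) * (z + 1) ≤ y * (z + 1) := Nat.mul_le_mul_right _ ht
  have h2 : (t + 1) * (z + 1) = t * (z + 1) + (z + 1) := by ring
  omega

theorem exists_cd {z y x : ℕ} (hx : x < 4 * (y * (z + 1))) : ∃ t w s e, t < y ∧ w ≤ z ∧ s < 2 ∧
    e < 2 ∧ x = cd z t w s e := by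
  refine ⟨x / 4 / (z + 1), x / 4 % (z + 1), x / 2 % 2, x % 2, ?_, ?_, by omega, by omega, ?_⟩
  · rw [Nat.div_lt_iff_lt_mul (by omega)]
    omega
  · exact Nat.le_of_lt_succ (Nat.mod_lt _ (by omega))
  · unfold cd
    have h := Nat.div_add_mod (x / 4) (z + 1)
    have h2 : x / 4 / (z + 1) * (z + 1) = (z + 1) * (x / 4 / (z + 1)) := Nat.mul_comm _ _
    omega

section

variable (z y : ℕ) (H : ℕ → ℕ → ℕ)

/-- the involution as a relation between codes -/
def Trel (x x' : ℕ) : Prop := ∃ t w s e t' w' s' e', t < y ∧ w ≤ z ∧ s < 2 ∧ e < 2 ∧ t' < y ∧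
  w' ≤ z ∧ s' < 2 ∧ e' < 2 ∧ x = cd z t w s e ∧ x' = cd z t' w' s' e' ∧
    TT z y H t w s e t' w' s' e'

open Classical in
/-- the involution -/
noncomputable def tau (x : ℕ) : ℕ := if h : ∃ x', Trel z y H x x' then h.choose else x

variable {z y H}

theorem Trel.symm {x x' : ℕ} (h : Trel z y H x x') : Trel z y H x' x := by
  obtain ⟨t, w, s, e, t', w', s', e', h1, h2, h3, h4, h5, h6, h7, h8, h9, h10, h⟩ := h
  exact ⟨t', w', s', e', t, w, s, e, h5, h6, h7, h8, h1, h2, h3, h4, h10, h9, h.symm h1⟩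

theorem Trel.unique {x x' x'' : ℕ} (h : Trel z y H x x') (h' : Trel z y H x x'') : x' = x'' := by
  obtain ⟨t, w, s, e, t', w', s', e', h1, h2, h3, h4, h5, h6, h7, h8, h9, h10, h⟩ := h
  obtain ⟨t₁, w₁, s₁, e₁, t'', w'', s'', e'', h1', h2', h3', h4', h5', h6', h7', h8', h9', h10',
    h'⟩ := h'
  obtain ⟨rfl, rfl, rfl, rfl⟩ := cd_inj h2 h3 h4 h2' h3' h4' (h9.symm.trans h9')
  obtain ⟨rfl, rfl, rfl, rfl⟩ := h.unique h'
  rw [h10, h10']

theorem Trel.total (hH : ∀ t w, H t w ≤ z) {x : ℕ} (hx : x < 4 * (y * (z + 1))) :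
    ∃ x', Trel z y H x x' := by
  obtain ⟨t, w, s, e, h1, h2, h3, h4, rfl⟩ := exists_cd hx
  obtain ⟨t', w', s', e', h5, h6, h7, h8, h⟩ := TT.total hH h1 h2 h3 h4
  exact ⟨_, t, w, s, e, t', w', s', e', h1, h2, h3, h4, h5, h6, h7, h8, rfl, rfl, h⟩

theorem tau_eq {x x' : ℕ} (h : Trel z y H x x') : tau z y H x = x' := by
  have hex : ∃ x', Trel z y H x x' := ⟨x', h⟩
  unfold tau
  rw [dif_pos hex]
  exact hex.choose_spec.unique h

theorem tau_fix {x : ℕ} (h : 4 * (y * (z + 1)) ≤ x) : tau z y H x = x := by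
  unfold tau
  rw [dif_neg]
  rintro ⟨x', t, w, s, e, t', w', s', e', h1, h2, h3, h4, h5, h6, h7, h8, h9, h10, _⟩
  have := cd_lt h1 h2 h3 h4
  omega

theorem tau_tau (hH : ∀ t w, H t w ≤ z) (x : ℕ) : tau z y H (tau z y H x) = x := by
  by_cases hx : x < 4 * (y * (z + 1))
  · obtain ⟨x', hx'⟩ := Trel.total hH hx
    rw [tau_eq hx', tau_eq hx'.symm]
  · rw [tau_fix (x := x) (by omega), tau_fix (by omega)]

theorem tau_graph (hH : ∀ t w, H t w ≤ z) (x x' : ℕ) : tau z y H x = x' ↔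
    (Trel z y H x x' ∨ (4 * (y * (z + 1)) ≤ x ∧ x' = x)) := by
  constructor
  · rintro rfl
    by_cases hx : x < 4 * (y * (z + 1))
    · obtain ⟨x', hx'⟩ := Trel.total hH hx
      rw [tau_eq hx']
      exact Or.inl hx'
    · exact Or.inr ⟨by omega, tau_fix (by omega)⟩
  · rintro (h | ⟨h, rfl⟩)
    · exact tau_eq h
    · exact tau_fix h

/-! ### Connections -/

theorem link_tau {t w s e t' w' s' e' : ℕ} (ht : t < y) (hw : w ≤ z) (hs : s < 2) (he : e < 2)
    (ht' : t' < y) (hw' : w' ≤ z) (hs' : s' < 2) (he' : e' < 2)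
    (h : TT z y H t w s e t' w' s' e') :
    Linked (tau z y H) (cd z t w s e) (cd z t' w' s' e') :=
  Relation.ReflTransGen.single (Or.inl (tau_eq ⟨t, w, s, e, t', w', s', e', ht, hw, hs, he, ht',
    hw', hs', he', rfl, rfl, h⟩).symm)

theorem link_eps {τ : ℕ → ℕ} (t w s e e' : ℕ) (he : e < 2) (he' : e' < 2) :
    Linked τ (cd z t w s e) (cd z t w s e') :=
  Relation.ReflTransGen.single (Or.inr (by unfold cd; omega))

/-- all flags of an edge are linked -/
def FlagA (z y : ℕ) (H : ℕ → ℕ → ℕ) (t : ℕ) : Prop :=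
  ∀ w ≤ z, Linked (tau z y H) (cd z t w 0 0) (cd z t w 1 0)

theorem link_sib (hH : ∀ t w, H t w ≤ z) {t : ℕ} (ht : t < y) (hA : FlagA z y H t) {x r : ℕ}
    (hx : Last z H t x r) : ∀ n w, z - w ≤ n → w ≤ z → H t w = r →
      Linked (tau z y H) (cd z t w 0 0) (cd z t x 0 0) := by
  intro n
  induction n with
  | zero =>
    intro w hn hw hr
    obtain rfl : w = x := by
      by_contra hne
      have : w = z := by omega
      subst this
      rcases lt_or_gt_of_ne hne with h | h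
      · have := hx.1
        omega
      · exact hx.2.2 w le_rfl h hr
    exact Relation.ReflTransGen.refl
  | succ n ih =>
    intro w hn hw hr
    rcases exists_next (H := H) (t := t) hw with ⟨x', hx'⟩ | hl
    · refine Relation.ReflTransGen.trans ?_ (ih x' (by have := hx'.1; omega) hx'.2.1
        (hx'.2.2.1.trans hr))
      refine (hA w hw).trans ((link_eps t w 1 0 1 (by omega) (by omega)).trans ?_)
      refine Relation.ReflTransGen.trans ?_ (link_eps t x' 0 1 0 (by omega) (by omega))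
      exact link_tau ht hw (by omega) (by omega) ht hx'.2.1 (by omega) (by omega)
        (Or.inr (Or.inr (Or.inr ⟨rfl, rfl, Or.inl ⟨hx', rfl, rfl, rfl⟩⟩)))
    · rw [hr] at hl
      rw [hl.unique hx]
      exact Relation.ReflTransGen.refl

theorem link_last (hH : ∀ t w, H t w ≤ z) {t : ℕ} (ht : t + 1 < y) (hA : FlagA z y H t) {w : ℕ}
    (hw : w ≤ z) : Linked (tau z y H) (cd z t w 0 0) (cd z (t + 1) (H t w) 1 0) := by
  obtain ⟨x, hx⟩ := exists_last (H := H) (t := t) hw rfl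
  refine (link_sib hH (by omega) hA hx _ w le_rfl hw rfl).trans ((hA x hx.1).trans
    ((link_eps t x 1 0 1 (by omega) (by omega)).trans ?_))
  have hx2 := hx.2.1
  rw [← hx2]
  rw [← hx2] at hx
  exact link_tau (by omega) hx.1 (by omega) (by omega) ht (hH _ _) (by omega) (by omega)
    (Or.inr (Or.inr (Or.inr ⟨rfl, rfl, Or.inr (Or.inl ⟨hx, ht, rfl, rfl, rfl, rfl⟩)⟩)))

theorem flagA (hH : ∀ t w, H t w ≤ z) : ∀ t, t < y → FlagA z y H t := by
  intro t
  induction t with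
  | zero =>
    intro ht w hw
    exact link_tau ht hw (by omega) (by omega) ht hw (by omega) (by omega)
      (Or.inl ⟨rfl, rfl, Or.inl ⟨Or.inl rfl, rfl, rfl, rfl, rfl⟩⟩)
  | succ t ih =>
    intro ht w hw
    have hA := ih (by omega)
    by_cases hl : Leaf z H (t + 1) w
    · exact link_tau ht hw (by omega) (by omega) ht hw (by omega) (by omega)
        (Or.inl ⟨rfl, rfl, Or.inl ⟨hl, rfl, rfl, rfl, rfl⟩⟩)
    · unfold Leaf at hl
      push Not at hl
      obtain ⟨h0, x, hx, hx'⟩ := hl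
      rw [Nat.add_sub_cancel] at hx'
      obtain ⟨x₁, hf⟩ := exists_first hx hx'
      refine Relation.ReflTransGen.trans (b := cd z t x₁ 0 1) ?_ ?_
      · exact link_tau ht hw (by omega) (by omega) (by omega) hf.1 (by omega) (by omega)
          (Or.inl ⟨rfl, rfl, Or.inr ⟨rfl, hf, rfl, rfl⟩⟩)
      · refine (link_eps t x₁ 0 1 0 (by omega) (by omega)).trans ?_
        have := link_last hH ht hA hf.1
        rwa [hf.2.1] at this

theorem link_parent (hH : ∀ t w, H t w ≤ z) {t : ℕ} (ht : t + 1 < y) {w : ℕ}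
    (hw : w ≤ z) : Linked (tau z y H) (cd z t w 0 0) (cd z (t + 1) (H t w) 0 0) :=
  (link_last hH ht (flagA hH t (by omega)) hw).trans
    ((flagA hH (t + 1) ht (H t w) (hH _ _)).symm (tau_tau hH))

/-! ### Roots -/

/-- the value at level `y` after `k` more steps -/
def rt (y : ℕ) (H : ℕ → ℕ → ℕ) : ℕ → ℕ → ℕ
  | 0, w => w
  | k + 1, w => rt y H k (H (y - (k + 1)) w)

theorem rt_step {t w : ℕ} (ht : t < y) : rt y H (y - t) w = rt y H (y - (t + 1)) (H t w) := by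
  obtain ⟨k, hk⟩ : ∃ k, y - t = k + 1 := ⟨y - t - 1, by omega⟩
  rw [hk]
  have h1 : y - (t + 1) = k := by omega
  have h2 : y - (k + 1) = t := by omega
  rw [h1]
  change rt y H k (H (y - (k + 1)) w) = _
  rw [h2]

theorem TT.root {t w s e t' w' s' e' : ℕ} (ht : t < y) (ht' : t' < y)
    (h : TT z y H t w s e t' w' s' e') : rt y H (y - t) w = rt y H (y - t') w' := by
  rcases h with ⟨rfl, rfl, h⟩ | ⟨rfl, rfl, h⟩ | ⟨rfl, rfl, h⟩ | ⟨rfl, rfl, h⟩
  · rcases h with ⟨h1, rfl, rfl, rfl, rfl⟩ | ⟨rfl, h1, rfl, rfl⟩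
    · rfl
    · rw [rt_step ht', h1.2.1]
  · rcases h with ⟨h1, rfl, rfl, rfl, rfl⟩ | ⟨rfl, h1, rfl, rfl⟩
    · rfl
    · rw [rt_step ht', h1.2.1]
  · rcases h with ⟨h1, rfl, rfl, rfl⟩ | ⟨h1, h2, rfl, rfl, rfl, rfl⟩ | ⟨h1, h2, rfl, rfl, rfl, rfl⟩
    · rw [rt_step ht, rt_step ht, h1.2.2.1]
    · rw [rt_step ht]
    · rfl
  · rcases h with ⟨h1, rfl, rfl, rfl⟩ | ⟨h1, h2, rfl, rfl, rfl, rfl⟩ | ⟨h1, h2, rfl, rfl, rfl, rfl⟩
    · rw [rt_step ht, rt_step ht, h1.2.2.1]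
    · rw [rt_step ht]
    · rfl

theorem Linked.root (hH : ∀ t w, H t w ≤ z) {x x' : ℕ} (h : Linked (tau z y H) x x') {t w s e : ℕ}
    (ht : t < y) (hw : w ≤ z) (hs : s < 2) (he : e < 2) (hx : x = cd z t w s e) :
    ∃ t' w' s' e', t' < y ∧ w' ≤ z ∧ s' < 2 ∧ e' < 2 ∧ x' = cd z t' w' s' e' ∧
      rt y H (y - t) w = rt y H (y - t') w' := by
  induction h with
  | refl => exact ⟨t, w, s, e, ht, hw, hs, he, hx, rfl⟩
  | @tail b c _ hbc ih =>
    obtain ⟨t₁, w₁, s₁, e₁, h1, h2, h3, h4, rfl, h6⟩ := ih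
    rcases hbc with rfl | hbc
    · obtain ⟨x', hx'⟩ := Trel.total hH (cd_lt h1 h2 h3 h4)
      rw [tau_eq hx']
      obtain ⟨t, w, s, e, t', w', s', e', h1', h2', h3', h4', h5', h6', h7', h8', h9', h10',
        h'⟩ := hx'
      obtain ⟨rfl, rfl, rfl, rfl⟩ := cd_inj h2 h3 h4 h2' h3' h4' h9'
      exact ⟨t', w', s', e', h5', h6', h7', h8', h10', h6.trans (h'.root h1' h5')⟩
    · refine ⟨t₁, w₁, s₁, c % 2, h1, h2, h3, by omega, ?_, h6⟩
      unfold cd at hbc ⊢
      omega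

theorem link_path (hH : ∀ t w, H t w ≤ z) {P : ℕ → ℕ} (hP0 : P 0 ≤ z)
    (hP : ∀ t, P (t + 1) = H t (P t)) : ∀ t, t < y → P t ≤ z ∧
      Linked (tau z y H) (cd z 0 (P 0) 0 0) (cd z t (P t) 0 0) := by
  intro t
  induction t with
  | zero => exact fun _ => ⟨hP0, Relation.ReflTransGen.refl⟩
  | succ t ih =>
    intro ht
    obtain ⟨h1, h2⟩ := ih (by omega)
    rw [hP]
    exact ⟨hH _ _, h2.trans (link_parent hH ht h1)⟩

theorem linked_iff (hH : ∀ t w, H t w ≤ z) (hy : 0 < y) {P : ℕ → ℕ} (hP0 : P 0 ≤ z)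
    (hP : ∀ t, P (t + 1) = H t (P t)) {w' : ℕ} (hw' : w' ≤ z) :
    Linked (tau z y H) (cd z 0 (P 0) 0 0) (cd z (y - 1) w' 0 0) ↔ H (y - 1) w' = P y := by
  obtain ⟨y, rfl⟩ : ∃ y', y = y' + 1 := ⟨y - 1, by omega⟩
  rw [Nat.add_sub_cancel]
  obtain ⟨h1, h2⟩ := link_path (y := y + 1) hH hP0 hP y (by omega)
  constructor
  · intro h
    have h3 : Linked (tau z (y + 1) H) (cd z y (P y) 0 0) (cd z y w' 0 0) :=
      (h2.symm (tau_tau hH)).trans h
    obtain ⟨t', w'', s', e', h4, h5, h6, h7, h8, h9⟩ := h3.root hH (by omega) h1 (by omega)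
      (by omega) rfl
    obtain ⟨rfl, rfl, rfl, rfl⟩ := cd_inj hw' (by omega) (by omega) h5 h6 h7 h8
    rw [rt_step (t := y) (w := P y) (by omega), rt_step (t := y) (w := w') (by omega),
      Nat.sub_self] at h9
    rw [hP]
    exact h9.symm
  · intro h
    refine h2.trans ?_
    obtain ⟨x, hx⟩ := exists_last (H := H) (t := y) hw' rfl
    have hA := flagA (y := y + 1) hH y (by omega)
    refine (link_sib hH (by omega) hA hx _ (P y) le_rfl h1 ?_).trans
      ((link_sib hH (by omega) hA hx _ w' le_rfl hw' rfl).symm (tau_tau hH))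
    rw [h, hP]

end

end Pool.Agent.J4H63.GZ
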