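import Pool.Agent.J4H63.GZ.Walk
import Pool.Agent.J4H63.GZ.Rec

/-!
# The involution has a `Δ₀` graph
-/

namespace Pool.Agent.J4H63.GZ

theorem PF.up {κ : Type} {f : (κ → ℕ) → ℕ} (hf : PF f) :
    PF (fun w : Option κ → ℕ => f (fun i => w (some i))) := hf.comp fun i => PF.proj (some i)

/-- families of binary functions with a `Δ₀` graph -/
def HD {ι : Type} (H : (ι → ℕ) → ℕ → ℕ → ℕ) : Prop :=
  Bd (fun u : Option (Option (Option ι)) → ℕ =>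
    H (fun i => u (some (some (some i)))) (u (some (some none))) (u (some none)) = u none)

section

variable {ι κ : Type} {H : (ι → ℕ) → ℕ → ℕ → ℕ}

theorem HD.app (hH : HD H) {p : ι → (κ → ℕ) → ℕ} (hp : ∀ i, PF (p i)) {t x w : (κ → ℕ) → ℕ}
    (ht : PF t) (hx : PF x) (hw : PF w) :
    Bd (fun v => H (fun i => p i v) (t v) (x v) = w v) := by
  refine (hH.subst (f := fun o v => o.elim (w v) (fun o => o.elim (x v) (fun o => o.elim (t v)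
    (fun i => p i v)))) ?_).congr fun v => Iff.rfl
  rintro (_ | _ | _ | i)
  · exact hw
  · exact hx
  · exact ht
  · exact hp i

variable {Z : (ι → ℕ) → ℕ}

theorem HD.appEq (hH : HD H) (hZ : PF Z) (hHZ : ∀ p t x, H p t x ≤ Z p) {p : ι → (κ → ℕ) → ℕ}
    (hp : ∀ i, PF (p i)) {t x t' x' : (κ → ℕ) → ℕ} (ht : PF t) (hx : PF x) (ht' : PF t')
    (hx' : PF x') :
    Bd (fun v => H (fun i => p i v) (t v) (x v) = H (fun i => p i v) (t' v) (x' v)) := by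
  refine (Bd.ex_le (b := fun v => Z (fun i => p i v)) (P := fun v u =>
    H (fun i => p i v) (t v) (x v) = u ∧ H (fun i => p i v) (t' v) (x' v) = u) (hZ.comp hp)
    (Bd.and (hH.app (fun i => (hp i).up) ht.up hx.up (PF.proj none))
      (hH.app (fun i => (hp i).up) ht'.up hx'.up (PF.proj none)))).congr fun v => ?_
  constructor
  · intro h
    exact ⟨_, hHZ _ _ _, h, rfl⟩
  · rintro ⟨u, _, h1, h2⟩
    rw [h1, h2]

theorem bd_first (hH : HD H) (hZ : PF Z) {p : ι → (κ → ℕ) → ℕ} (hp : ∀ i, PF (p i))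
    {t x w : (κ → ℕ) → ℕ} (ht : PF t) (hx : PF x) (hw : PF w) :
    Bd (fun v => First (Z (fun i => p i v)) (H (fun i => p i v)) (t v) (x v) (w v)) :=
  Bd.and (Bd.lef hx (hZ.comp hp)) (Bd.and (hH.app hp ht hx hw) (Bd.all_lt hx
    (Bd.not (hH.app (fun i => (hp i).up) ht.up (PF.proj none) hw.up))))

theorem bd_last (hH : HD H) (hZ : PF Z) {p : ι → (κ → ℕ) → ℕ} (hp : ∀ i, PF (p i))
    {t x w : (κ → ℕ) → ℕ} (ht : PF t) (hx : PF x) (hw : PF w) :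
    Bd (fun v => Last (Z (fun i => p i v)) (H (fun i => p i v)) (t v) (x v) (w v)) :=
  Bd.and (Bd.lef hx (hZ.comp hp)) (Bd.and (hH.app hp ht hx hw) (Bd.all_le (hZ.comp hp)
    (Bd.imp (Bd.ltf hx.up (PF.proj none))
      (Bd.not (hH.app (fun i => (hp i).up) ht.up (PF.proj none) hw.up)))))

theorem bd_nxt (hH : HD H) (hZ : PF Z) (hHZ : ∀ p t x, H p t x ≤ Z p) {p : ι → (κ → ℕ) → ℕ}
    (hp : ∀ i, PF (p i)) {t x w : (κ → ℕ) → ℕ} (ht : PF t) (hx : PF x) (hw : PF w) :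
    Bd (fun v => Nxt (Z (fun i => p i v)) (H (fun i => p i v)) (t v) (x v) (w v)) :=
  Bd.and (Bd.ltf hx hw) (Bd.and (Bd.lef hw (hZ.comp hp)) (Bd.and
    (hH.appEq hZ hHZ hp ht hw ht hx) (Bd.all_lt hw (Bd.imp (Bd.ltf hx.up (PF.proj none))
      (Bd.not (hH.appEq hZ hHZ (fun i => (hp i).up) ht.up (PF.proj none) ht.up hx.up))))))

theorem bd_leaf (hH : HD H) (hZ : PF Z) {p : ι → (κ → ℕ) → ℕ} (hp : ∀ i, PF (p i))
    {t w : (κ → ℕ) → ℕ} (ht : PF t) (hw : PF w) :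
    Bd (fun v => Leaf (Z (fun i => p i v)) (H (fun i => p i v)) (t v) (w v)) := by
  refine (Bd.or (Bd.eqf ht (PF.const 0)) (Bd.ex_le (b := t) (P := fun v t' => t v = t' + 1 ∧
    ∀ x ≤ Z (fun i => p i v), H (fun i => p i v) t' x ≠ w v) ht (Bd.and
      (Bd.eqf ht.up ((PF.proj none).add (PF.const 1)))
      (Bd.all_le (hZ.comp fun i => (hp i).up) (Bd.not (hH.app (fun i => ((hp i).up).up)
        (PF.proj (some none)) (PF.proj none) hw.up.up)))))).congr fun v => ?_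
  unfold Leaf
  constructor
  · rintro (h | h)
    · exact Or.inl h
    · by_cases h0 : t v = 0
      · exact Or.inl h0
      · exact Or.inr ⟨t v - 1, by omega, by omega, h⟩
  · rintro (h | ⟨t', h1, h2, h3⟩)
    · exact Or.inl h
    · refine Or.inr ?_
      rw [h2, Nat.add_sub_cancel]
      exact h3

theorem bd_first' (hH : HD H) (hZ : PF Z) (hHZ : ∀ p t x, H p t x ≤ Z p) {p : ι → (κ → ℕ) → ℕ}
    (hp : ∀ i, PF (p i)) {t x : (κ → ℕ) → ℕ} (ht : PF t) (hx : PF x) :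
    Bd (fun v => First (Z (fun i => p i v)) (H (fun i => p i v)) (t v) (x v)
      (H (fun i => p i v) (t v) (x v))) := by
  refine (Bd.ex_le (b := fun v => Z (fun i => p i v)) (P := fun v u =>
    H (fun i => p i v) (t v) (x v) = u ∧
      First (Z (fun i => p i v)) (H (fun i => p i v)) (t v) (x v) u) (hZ.comp hp)
    (Bd.and (hH.app (fun i => (hp i).up) ht.up hx.up (PF.proj none))
      (bd_first hH hZ (fun i => (hp i).up) ht.up hx.up (PF.proj none)))).congr fun v => ?_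
  constructor
  · intro h
    exact ⟨_, hHZ _ _ _, rfl, h⟩
  · rintro ⟨u, _, h1, h2⟩
    rwa [h1]

theorem bd_last' (hH : HD H) (hZ : PF Z) (hHZ : ∀ p t x, H p t x ≤ Z p) {p : ι → (κ → ℕ) → ℕ}
    (hp : ∀ i, PF (p i)) {t x : (κ → ℕ) → ℕ} (ht : PF t) (hx : PF x) :
    Bd (fun v => Last (Z (fun i => p i v)) (H (fun i => p i v)) (t v) (x v)
      (H (fun i => p i v) (t v) (x v))) := by
  refine (Bd.ex_le (b := fun v => Z (fun i => p i v)) (P := fun v u =>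
    H (fun i => p i v) (t v) (x v) = u ∧
      Last (Z (fun i => p i v)) (H (fun i => p i v)) (t v) (x v) u) (hZ.comp hp)
    (Bd.and (hH.app (fun i => (hp i).up) ht.up hx.up (PF.proj none))
      (bd_last hH hZ (fun i => (hp i).up) ht.up hx.up (PF.proj none)))).congr fun v => ?_
  constructor
  · intro h
    exact ⟨_, hHZ _ _ _, rfl, h⟩
  · rintro ⟨u, _, h1, h2⟩
    rwa [h1]

theorem bd_TT (hH : HD H) (hZ : PF Z) (hHZ : ∀ p t x, H p t x ≤ Z p) {p : ι → (κ → ℕ) → ℕ}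
    (hp : ∀ i, PF (p i)) {y t w s e t' w' s' e' : (κ → ℕ) → ℕ} (hy : PF y) (ht : PF t) (hw : PF w)
    (hs : PF s) (he : PF e) (ht' : PF t') (hw' : PF w') (hs' : PF s') (he' : PF e') :
    Bd (fun v => TT (Z (fun i => p i v)) (y v) (H (fun i => p i v)) (t v) (w v) (s v) (e v)
      (t' v) (w' v) (s' v) (e' v)) := by
  have c0 : PF (fun _ : κ → ℕ => 0) := PF.const 0
  have c1 : PF (fun _ : κ → ℕ => 1) := PF.const 1
  have hleaf := bd_leaf hH hZ hp ht hw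
  have hff := bd_first' hH hZ hHZ hp ht hw
  have hll := bd_last' hH hZ hHZ hp ht hw
  have hmove : Bd (fun v => w' v = H (fun i => p i v) (t v) (w v)) :=
    (hH.app hp ht hw hw').congr fun v => eq_comm
  refine Bd.or (Bd.and (Bd.eqf he c0) (Bd.and (Bd.eqf hs c0) (Bd.or ?_ ?_))) (Bd.or
    (Bd.and (Bd.eqf he c0) (Bd.and (Bd.eqf hs c1) (Bd.or ?_ ?_))) (Bd.or
    (Bd.and (Bd.eqf he c1) (Bd.and (Bd.eqf hs c0) (Bd.or ?_ (Bd.or ?_ ?_))))
    (Bd.and (Bd.eqf he c1) (Bd.and (Bd.eqf hs c1) (Bd.or ?_ (Bd.or ?_ ?_))))))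
  · exact Bd.and hleaf (Bd.and (Bd.eqf ht' ht) (Bd.and (Bd.eqf hw' hw) (Bd.and (Bd.eqf hs' c1)
      (Bd.eqf he' c0))))
  · exact Bd.and (Bd.eqf ht (ht'.add c1)) (Bd.and (bd_first hH hZ hp ht' hw' hw)
      (Bd.and (Bd.eqf hs' c0) (Bd.eqf he' c1)))
  · exact Bd.and hleaf (Bd.and (Bd.eqf ht' ht) (Bd.and (Bd.eqf hw' hw) (Bd.and (Bd.eqf hs' c0)
      (Bd.eqf he' c0))))
  · exact Bd.and (Bd.eqf ht (ht'.add c1)) (Bd.and (bd_last hH hZ hp ht' hw' hw)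
      (Bd.and (Bd.eqf hs' c1) (Bd.eqf he' c1)))
  · exact Bd.and (bd_nxt hH hZ hHZ hp ht hw' hw) (Bd.and (Bd.eqf ht' ht) (Bd.and (Bd.eqf hs' c1)
      (Bd.eqf he' c1)))
  · exact Bd.and hff (Bd.and (Bd.ltf (ht.add c1) hy) (Bd.and (Bd.eqf ht' (ht.add c1)) (Bd.and
      hmove (Bd.and (Bd.eqf hs' c0) (Bd.eqf he' c0)))))
  · exact Bd.and hff (Bd.and (Bd.lef hy (ht.add c1)) (Bd.and (Bd.eqf ht' ht) (Bd.and
      (Bd.eqf hw' hw) (Bd.and (Bd.eqf hs' c0) (Bd.eqf he' c1)))))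
  · exact Bd.and (bd_nxt hH hZ hHZ hp ht hw hw') (Bd.and (Bd.eqf ht' ht) (Bd.and (Bd.eqf hs' c0)
      (Bd.eqf he' c1)))
  · exact Bd.and hll (Bd.and (Bd.ltf (ht.add c1) hy) (Bd.and (Bd.eqf ht' (ht.add c1)) (Bd.and
      hmove (Bd.and (Bd.eqf hs' c1) (Bd.eqf he' c0)))))
  · exact Bd.and hll (Bd.and (Bd.lef hy (ht.add c1)) (Bd.and (Bd.eqf ht' ht) (Bd.and
      (Bd.eqf hw' hw) (Bd.and (Bd.eqf hs' c1) (Bd.eqf he' c1)))))

theorem PF.cd {z t w s e : (κ → ℕ) → ℕ} (hz : PF z) (ht : PF t) (hw : PF w) (hs : PF s)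
    (he : PF e) : PF (fun v => GZ.cd (z v) (t v) (w v) (s v) (e v)) :=
  (((PF.const 4).mul ((ht.mul (hz.add (PF.const 1))).add hw)).add ((PF.const 2).mul hs)).add he

theorem bd_Trel (hH : HD H) (hZ : PF Z) (hHZ : ∀ p t x, H p t x ≤ Z p) {p : ι → (κ → ℕ) → ℕ}
    (hp : ∀ i, PF (p i)) {y x x' : (κ → ℕ) → ℕ} (hy : PF y) (hx : PF x) (hx' : PF x') :
    Bd (fun v => Trel (Z (fun i => p i v)) (y v) (H (fun i => p i v)) (x v) (x' v)) := by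
  refine (Bd.exVec (Fin 8) (ι := κ) (b := fun v => y v + Z (fun i => p i v) + 2)
    (P := fun v q => (q 0 < y v ∧ q 1 ≤ Z (fun i => p i v) ∧ q 2 < 2 ∧ q 3 < 2) ∧
      (q 4 < y v ∧ q 5 ≤ Z (fun i => p i v) ∧ q 6 < 2 ∧ q 7 < 2) ∧
      (x v = cd (Z (fun i => p i v)) (q 0) (q 1) (q 2) (q 3) ∧
        x' v = cd (Z (fun i => p i v)) (q 4) (q 5) (q 6) (q 7)) ∧
      TT (Z (fun i => p i v)) (y v) (H (fun i => p i v)) (q 0) (q 1) (q 2) (q 3)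
        (q 4) (q 5) (q 6) (q 7)) ((hy.add (hZ.comp hp)).add (PF.const 2)) ?_).congr fun v => ?_
  · have hl : ∀ {f : (κ → ℕ) → ℕ}, PF f →
        PF (fun w : κ ⊕ Fin 8 → ℕ => f (fun i => w (Sum.inl i))) :=
      fun hf => hf.comp fun i => PF.proj (Sum.inl i)
    have hr : ∀ j : Fin 8, PF (fun w : κ ⊕ Fin 8 → ℕ => w (Sum.inr j)) :=
      fun j => PF.proj (Sum.inr j)
    have hz := hZ.comp (ι := κ ⊕ Fin 8) fun i => hl (hp i)
    have c2 : PF (fun _ : κ ⊕ Fin 8 → ℕ => 2) := PF.const 2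
    refine Bd.and (Bd.and (Bd.ltf (hr 0) (hl hy)) (Bd.and (Bd.lef (hr 1) hz) (Bd.and
      (Bd.ltf (hr 2) c2) (Bd.ltf (hr 3) c2)))) (Bd.and (Bd.and (Bd.ltf (hr 4) (hl hy)) (Bd.and
      (Bd.lef (hr 5) hz) (Bd.and (Bd.ltf (hr 6) c2) (Bd.ltf (hr 7) c2)))) (Bd.and (Bd.and
      (Bd.eqf (hl hx) (PF.cd hz (hr 0) (hr 1) (hr 2) (hr 3)))
      (Bd.eqf (hl hx') (PF.cd hz (hr 4) (hr 5) (hr 6) (hr 7)))) ?_))
    exact bd_TT hH hZ hHZ (fun i => hl (hp i)) (hl hy) (hr 0) (hr 1) (hr 2) (hr 3) (hr 4) (hr 5)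
      (hr 6) (hr 7)
  · constructor
    · rintro ⟨t, w, s, e, t', w', s', e', h1, h2, h3, h4, h5, h6, h7, h8, h9, h10, h⟩
      refine ⟨![t, w, s, e, t', w', s', e'], fun i => ?_, ⟨h1, h2, h3, h4⟩, ⟨h5, h6, h7, h8⟩,
        ⟨h9, h10⟩, h⟩
      fin_cases i <;> simp <;> omega
    · rintro ⟨q, _, ⟨h1, h2, h3, h4⟩, ⟨h5, h6, h7, h8⟩, ⟨h9, h10⟩, h⟩
      exact ⟨_, _, _, _, _, _, _, _, h1, h2, h3, h4, h5, h6, h7, h8, h9, h10, h⟩

theorem bd_tau (hH : HD H) (hZ : PF Z) (hHZ : ∀ p t x, H p t x ≤ Z p) {p : ι → (κ → ℕ) → ℕ}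
    (hp : ∀ i, PF (p i)) {y x x' : (κ → ℕ) → ℕ} (hy : PF y) (hx : PF x) (hx' : PF x') :
    Bd (fun v => tau (Z (fun i => p i v)) (y v) (H (fun i => p i v)) (x v) = x' v) :=
  (Bd.or (bd_Trel hH hZ hHZ hp hy hx hx') (Bd.and (Bd.lef ((PF.const 4).mul (hy.mul
    ((hZ.comp hp).add (PF.const 1)))) hx) (Bd.eqf hx' hx))).congr
    fun v => tau_graph (fun t w => hHZ _ t w) _ _

end

end Pool.Agent.J4H63.GZ
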